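import Mathlib

namespace Pool.Agent.Helper99.Ring

open Real

/-- Pair force `w(t) = cos t / sin² t`. -/
noncomputable def w (t : ℝ) : ℝ := cos t / sin t ^ 2

noncomputable def fA (t : ℝ) : ℝ := (1 + cos t ^ 2) / sin t

noncomputable def fB (t : ℝ) : ℝ := - cos t ^ 3 / sin t ^ 2

/-- remainder -/
noncomputable def rr (a b : ℝ) : ℝ := cos b / sin b - fA a * cos b - fB a * sin b

lemma poly_ineq (x y : ℝ) (hx : 0 < x) (hy : 0 < y) :
    y ^ 2 * ((1 + x ^ 2) * (1 - x ^ 2 * y ^ 2) + (1 - x ^ 2) * (2 * (x * y))) ^ 2 ≤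
      (x + y) ^ 2 * (1 + x ^ 2 * y ^ 2) ^ 2 * ((1 + x ^ 2) * (1 + y ^ 2)) := by
  have key : (x + y) ^ 2 * (1 + x ^ 2 * y ^ 2) ^ 2 * ((1 + x ^ 2) * (1 + y ^ 2)) -
      y ^ 2 * ((1 + x ^ 2) * (1 - x ^ 2 * y ^ 2) + (1 - x ^ 2) * (2 * (x * y))) ^ 2 =
      y ^ 2 * (y - x) ^ 2 + x ^ 2 * (1 - y ^ 2 + y ^ 4) + x ^ 6 * y ^ 4 * (x - y) ^ 2 
      + x ^ 6 * y ^ 4 * (1 - y ^ 2 + y ^ 4)
      + (2 * (x * y) + 2 * (x ^ 2 * y ^ 6) + 2 * (x ^ 3 * y) + 6 * (x ^ 3 * y ^ 3)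
       + 8 * (x ^ 3 * y ^ 5) + x ^ 4 + 2 * (x ^ 4 * y ^ 2) + 16 * (x ^ 4 * y ^ 4) 
       + 2 * (x ^ 4 * y ^ 6) + x ^ 4 * y ^ 8 + 8 * (x ^ 5 * y ^ 3) + 6 * (x ^ 5 * y ^ 5)
       + 2 * (x ^ 5 * y ^ 7) + 2 * (x ^ 6 * y ^ 2) + 2 * (x ^ 7 * y ^ 7)) := by
    ring
  have h1 : 0 ≤ 1 - y ^ 2 + y ^ 4 := by nlinarith [sq_nonneg (y ^ 2 - 1)]
  have h2 : 0 ≤ y ^ 2 * (y - x) ^ 2 + x ^ 2 * (1 - y ^ 2 + y ^ 4) + x ^ 6 * y ^ 4 * (x - y) ^ 2 
      + x ^ 6 * y ^ 4 * (1 - y ^ 2 + y ^ 4)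
      + (2 * (x * y) + 2 * (x ^ 2 * y ^ 6) + 2 * (x ^ 3 * y) + 6 * (x ^ 3 * y ^ 3)
       + 8 * (x ^ 3 * y ^ 5) + x ^ 4 + 2 * (x ^ 4 * y ^ 2) + 16 * (x ^ 4 * y ^ 4) 
       + 2 * (x ^ 4 * y ^ 6) + x ^ 4 * y ^ 8 + 8 * (x ^ 5 * y ^ 3) + 6 * (x ^ 5 * y ^ 5)
       + 2 * (x ^ 5 * y ^ 7) + 2 * (x ^ 6 * y ^ 2) + 2 * (x ^ 7 * y ^ 7)) := by
    have := mul_nonneg (sq_nonneg x) h1
    have := mul_nonneg (by positivity : 0 ≤ x ^ 6 * y ^ 4) h1
    positivity
  linarith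

lemma half_angle (a : ℝ) (ha : 0 < a) (ha' : a < π) :
    0 < tan (a / 2) ∧ sin a = 2 * tan (a / 2) / (1 + tan (a / 2) ^ 2) ∧
      cos a = (1 - tan (a / 2) ^ 2) / (1 + tan (a / 2) ^ 2) ∧
      sin (a / 2) = tan (a / 2) * cos (a / 2) ∧
      cos (a / 2) ^ 2 = 1 / (1 + tan (a / 2) ^ 2) ∧ 0 < cos (a / 2) := by
  have hc : 0 < cos (a / 2) := cos_pos_of_mem_Ioo ⟨by linarith, by linarith⟩
  have hs : 0 < sin (a / 2) := sin_pos_of_pos_of_lt_pi (by linarith) (by linarith)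
  have h1 : sin a = 2 * sin (a / 2) * cos (a / 2) := by
    rw [← sin_two_mul]; congr 1; ring
  have h2 : cos a = cos (a / 2) ^ 2 - sin (a / 2) ^ 2 := by
    rw [← cos_two_mul']; congr 1; ring
  have h3 : sin (a / 2) ^ 2 + cos (a / 2) ^ 2 = 1 := sin_sq_add_cos_sq _
  have h4 : tan (a / 2) = sin (a / 2) / cos (a / 2) := tan_eq_sin_div_cos _
  set s := sin (a / 2)
  set c := cos (a / 2)
  have hD : 1 + tan (a / 2) ^ 2 = 1 / c ^ 2 := by
    rw [h4]; field_simp; linarith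
  refine ⟨by rw [h4]; positivity, ?_, ?_, ?_, ?_, hc⟩
  · rw [h1, hD, h4]; field_simp
  · rw [h2, hD, h4]; field_simp
  · rw [h4]; field_simp
  · rw [hD]; field_simp

lemma trig_ineq (a b : ℝ) (ha : 0 < a) (ha' : a < π) (hb : 0 < b) (hb' : b < π) :
    |cos a + cos b + cos a * sin a * sin b| * sin b ≤
      2 * sin ((a + b) / 2) * (1 + cos a * cos b) := by
  obtain ⟨hx, hsa, hca, hsa2, hca2, hca3⟩ := half_angle a ha ha'
  obtain ⟨hy, hsb, hcb, hsb2, hcb2, hcb3⟩ := half_angle b hb hb'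
  set x := tan (a / 2)
  set y := tan (b / 2)
  have hu : sin ((a + b) / 2) = (x + y) * (cos (a / 2) * cos (b / 2)) := by
    rw [add_div, sin_add, hsa2, hsb2]; ring
  have hu2 : sin ((a + b) / 2) ^ 2 = (x + y) ^ 2 / ((1 + x ^ 2) * (1 + y ^ 2)) := by
    rw [hu, mul_pow, mul_pow, hca2, hcb2]; field_simp
  have hu0 : 0 < sin ((a + b) / 2) := by rw [hu]; positivity
  have hS : 0 < sin b := by rw [hsb]; positivity
  have h1c : 1 + cos a * cos b = 2 * (1 + x ^ 2 * y ^ 2) / ((1 + x ^ 2) * (1 + y ^ 2)) := by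
    rw [hca, hcb]; field_simp; ring
  have h1c' : 0 < 1 + cos a * cos b := by rw [h1c]; positivity
  have hM : cos a + cos b + cos a * sin a * sin b =
      2 * ((1 + x ^ 2) * (1 - x ^ 2 * y ^ 2) + (1 - x ^ 2) * (2 * (x * y))) /
        ((1 + x ^ 2) ^ 2 * (1 + y ^ 2)) := by
    rw [hca, hcb, hsa, hsb]; field_simp; ring
  have hsq : ((cos a + cos b + cos a * sin a * sin b) * sin b) ^ 2 ≤
      (2 * sin ((a + b) / 2) * (1 + cos a * cos b)) ^ 2 := by
    have e1 : (2 * sin ((a + b) / 2) * (1 + cos a * cos b)) ^ 2 =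
        4 * (sin ((a + b) / 2) ^ 2) * (1 + cos a * cos b) ^ 2 := by ring
    rw [e1, hu2, h1c, hM, hsb]
    have e2 : (2 * ((1 + x ^ 2) * (1 - x ^ 2 * y ^ 2) + (1 - x ^ 2) * (2 * (x * y))) /
        ((1 + x ^ 2) ^ 2 * (1 + y ^ 2)) * (2 * y / (1 + y ^ 2))) ^ 2 =
        16 * (y ^ 2 * ((1 + x ^ 2) * (1 - x ^ 2 * y ^ 2) + (1 - x ^ 2) * (2 * (x * y))) ^ 2) /
          ((1 + x ^ 2) * (1 + y ^ 2)) ^ 4 := by
      field_simp
      ring
    have e3 : 4 * ((x + y) ^ 2 / ((1 + x ^ 2) * (1 + y ^ 2))) *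
        (2 * (1 + x ^ 2 * y ^ 2) / ((1 + x ^ 2) * (1 + y ^ 2))) ^ 2 =
        16 * ((x + y) ^ 2 * (1 + x ^ 2 * y ^ 2) ^ 2 * ((1 + x ^ 2) * (1 + y ^ 2))) /
          ((1 + x ^ 2) * (1 + y ^ 2)) ^ 4 := by
      field_simp
      ring
    rw [e2, e3]
    apply div_le_div_of_nonneg_right _ (by positivity)
    have := poly_ineq x y hx hy
    linarith
  have hR : 0 ≤ 2 * sin ((a + b) / 2) * (1 + cos a * cos b) := by positivity
  have := abs_le_of_sq_le_sq hsq hR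
  rwa [abs_mul, abs_of_pos hS] at this

lemma rr_eq (a b : ℝ) (ha : sin a ≠ 0) (hb : sin b ≠ 0) :
    rr a b * (sin b * sin a ^ 2) =
      (1 - cos (b - a)) * (cos a + cos b + cos a * sin a * sin b) := by
  unfold rr fA fB
  rw [cos_sub]
  field_simp
  have h1 : sin a ^ 2 = 1 - cos a ^ 2 := sin_sq a
  have h2 : sin b ^ 2 = 1 - cos b ^ 2 := sin_sq b
  have h1' : sin a ^ 3 = sin a * (1 - cos a ^ 2) := by rw [← h1]; ring
  ring_nf
  rw [h2, h1]
  ring

lemma w_sub (a b : ℝ) (ha : sin a ≠ 0) (hb : sin b ≠ 0) :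
    (w a - w b) * (sin b ^ 2 * sin a ^ 2) = (cos a - cos b) * (1 + cos a * cos b) := by
  unfold w
  field_simp
  rw [sin_sq a, sin_sq b]
  ring

lemma sin_mul_le (v : ℝ) : sin v ^ 2 ≤ v * sin v ∨ π < |v| := by
  by_cases h : |v| ≤ π
  · left
    rcases abs_le.1 h with ⟨h1, h2⟩
    rcases le_total 0 v with hv | hv
    · have a1 : sin v ≤ v := sin_le hv
      have a2 : 0 ≤ sin v := sin_nonneg_of_nonneg_of_le_pi hv h2
      nlinarith
    · have a1 : v ≤ sin v := by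
        have := sin_le (x := -v) (by linarith)
        rw [sin_neg] at this; linarith
      have a2 : sin v ≤ 0 := sin_nonpos_of_nonpos_of_neg_pi_le hv h1
      nlinarith
  · right; exact not_le.1 h

/-- The kernel inequality. -/
lemma kernel_ineq (a b : ℝ) (ha : 0 < a) (ha' : a < π) (hb : 0 < b) (hb' : b < π) :
    |rr a b| ≤ (w a - w b) * (b - a) := by
  have hsa : 0 < sin a := sin_pos_of_pos_of_lt_pi ha ha'
  have hsb : 0 < sin b := sin_pos_of_pos_of_lt_pi hb hb'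
  have h1 := rr_eq a b hsa.ne' hsb.ne'
  have h2 := w_sub a b hsa.ne' hsb.ne'
  have h3 := trig_ineq a b ha ha' hb hb'
  have hcc : cos a - cos b = 2 * sin ((a + b) / 2) * sin ((b - a) / 2) := by
    rw [cos_sub_cos]
    have : (a - b) / 2 = -((b - a) / 2) := by ring
    rw [this, sin_neg]; ring
  have hcv : 1 - cos (b - a) = 2 * sin ((b - a) / 2) ^ 2 := by
    have : cos (b - a) = 1 - 2 * sin ((b - a) / 2) ^ 2 := by
      have h := cos_two_mul ((b - a) / 2)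
      rw [show 2 * ((b - a) / 2) = b - a by ring] at h
      rw [h, cos_sq']; ring
    linarith
  have hv : sin ((b - a) / 2) ^ 2 ≤ (b - a) / 2 * sin ((b - a) / 2) := by
    rcases sin_mul_le ((b - a) / 2) with h | h
    · exact h
    · exfalso
      have : |(b - a) / 2| ≤ π := by
        rw [abs_le]; constructor <;> linarith
      linarith
  have hsu : 0 ≤ sin ((a + b) / 2) :=
    sin_nonneg_of_nonneg_of_le_pi (by linarith) (by linarith)
  have hcC : 0 ≤ 1 + cos a * cos b := by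
    have h4 := abs_le.1 (abs_cos_le_one a)
    have h5 := abs_le.1 (abs_cos_le_one b)
    nlinarith
  have hpos : 0 < sin b ^ 2 * sin a ^ 2 := by positivity
  have key : |rr a b| * (sin b ^ 2 * sin a ^ 2) ≤
      (w a - w b) * (b - a) * (sin b ^ 2 * sin a ^ 2) := by
    have e1 : |rr a b| * (sin b ^ 2 * sin a ^ 2) =
        2 * sin ((b - a) / 2) ^ 2 *
          (|cos a + cos b + cos a * sin a * sin b| * sin b) := by
      have : |rr a b| * (sin b * sin a ^ 2) =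
          2 * sin ((b - a) / 2) ^ 2 * |cos a + cos b + cos a * sin a * sin b| := by
        have hh := congrArg abs h1
        rw [abs_mul (rr a b), abs_mul (1 - cos (b - a)), hcv,
          abs_of_pos (by positivity : 0 < sin b * sin a ^ 2),
          abs_of_nonneg (by positivity : 0 ≤ 2 * sin ((b - a) / 2) ^ 2)] at hh
        exact hh
      calc |rr a b| * (sin b ^ 2 * sin a ^ 2) = (|rr a b| * (sin b * sin a ^ 2)) * sin b := by ring
        _ = _ := by rw [this]; ring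
    have e2 : (w a - w b) * (b - a) * (sin b ^ 2 * sin a ^ 2) =
        4 * ((b - a) / 2 * sin ((b - a) / 2)) *
          (sin ((a + b) / 2) * (1 + cos a * cos b)) := by
      calc (w a - w b) * (b - a) * (sin b ^ 2 * sin a ^ 2) =
          ((w a - w b) * (sin b ^ 2 * sin a ^ 2)) * (b - a) := by ring
        _ = _ := by rw [h2, hcc]; ring
    rw [e1, e2]
    calc 2 * sin ((b - a) / 2) ^ 2 * (|cos a + cos b + cos a * sin a * sin b| * sin b) ≤
        2 * sin ((b - a) / 2) ^ 2 * (2 * sin ((a + b) / 2) * (1 + cos a * cos b)) := by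
          apply mul_le_mul_of_nonneg_left h3 (by positivity)
      _ = 4 * sin ((b - a) / 2) ^ 2 * (sin ((a + b) / 2) * (1 + cos a * cos b)) := by ring
      _ ≤ _ := by
          apply mul_le_mul_of_nonneg_right _ (mul_nonneg hsu hcC)
          linarith
  exact le_of_mul_le_mul_right key hpos

lemma w_gap_pos (a b : ℝ) (ha : 0 < a) (ha' : a < π) (hb : 0 < b) (hb' : b < π) (hab : a ≠ b) :
    0 < (w a - w b) * (b - a) := by
  have hsa : 0 < sin a := sin_pos_of_pos_of_lt_pi ha ha'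
  have hsb : 0 < sin b := sin_pos_of_pos_of_lt_pi hb hb'
  have h2 := w_sub a b hsa.ne' hsb.ne'
  have hcC : 0 < 1 + cos a * cos b := by
    have h4 := abs_le.1 (abs_cos_le_one a)
    have h5 := abs_le.1 (abs_cos_le_one b)
    have h6 : cos a ^ 2 < 1 := by
      have := sin_sq_add_cos_sq a
      nlinarith
    have h7 : cos b ^ 2 < 1 := by
      have := sin_sq_add_cos_sq b
      nlinarith
    nlinarith [sq_nonneg (cos a + cos b)]
  have hpos : 0 < sin b ^ 2 * sin a ^ 2 := by positivity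
  have h3 : 0 < (cos a - cos b) * (b - a) := by
    rcases lt_or_gt_of_ne hab with h | h
    · have := cos_lt_cos_of_nonneg_of_le_pi ha.le hb'.le h
      apply mul_pos <;> linarith
    · have := cos_lt_cos_of_nonneg_of_le_pi hb.le ha'.le h
      apply mul_pos_of_neg_of_neg <;> linarith
  have h4 : 0 < (w a - w b) * (b - a) * (sin b ^ 2 * sin a ^ 2) := by
    have : (w a - w b) * (b - a) * (sin b ^ 2 * sin a ^ 2) =
      ((w a - w b) * (sin b ^ 2 * sin a ^ 2)) * (b - a) := by ring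
    rw [this, h2]
    have : (cos a - cos b) * (1 + cos a * cos b) * (b - a) =
      ((cos a - cos b) * (b - a)) * (1 + cos a * cos b) := by ring
    rw [this]
    positivity
  exact (mul_pos_iff_of_pos_right hpos).1 h4

end Pool.Agent.Helper99.Ring
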