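import Mathlib

namespace Pool.Agent.Helper99.Ring

open Real Finset

lemma le_of_deriv_le_nonneg {f g f' g' : ℝ → ℝ} (hf : ∀ x, HasDerivAt f (f' x) x)
    (hg : ∀ x, HasDerivAt g (g' x) x) (h0 : f 0 ≤ g 0) (h : ∀ x, 0 ≤ x → f' x ≤ g' x) :
    ∀ x, 0 ≤ x → f x ≤ g x := by
  intro x hx
  have hmono : MonotoneOn (fun x => g x - f x) (Set.Ici 0) := by
    apply monotoneOn_of_deriv_nonneg (convex_Ici 0)
    · exact fun y _ => ((hg y).sub (hf y)).continuousAt.continuousWithinAt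
    · exact fun y _ => ((hg y).sub (hf y)).differentiableAt.differentiableWithinAt
    · intro y hy
      rw [interior_Ici] at hy
      have e : deriv (fun x => g x - f x) y = g' y - f' y := ((hg y).sub (hf y)).deriv
      rw [e]
      have := h y (le_of_lt hy)
      linarith
  have := hmono (Set.mem_Ici.2 le_rfl) (Set.mem_Ici.2 hx) hx
  simp only at this
  linarith

lemma sin_le_t1 (x : ℝ) (hx : 0 ≤ x) : sin x ≤ x := sin_le hx

lemma cos_ge_t2 (x : ℝ) : 1 - x ^ 2 / 2 ≤ cos x := one_sub_sq_div_two_le_cos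

lemma sin_ge_t3 (x : ℝ) (hx : 0 ≤ x) : x - x ^ 3 / 6 ≤ sin x := sin_ge_sub_cube hx

lemma cos_le_t4_nonneg : ∀ x : ℝ, 0 ≤ x → cos x ≤ 1 - x ^ 2 / 2 + x ^ 4 / 24 := by
  apply le_of_deriv_le_nonneg (f' := fun x => - sin x) (g' := fun x => - x + x ^ 3 / 6)
  · intro x; exact hasDerivAt_cos x
  · intro x
    have h := (((hasDerivAt_const x (1 : ℝ)).sub (((hasDerivAt_id x).pow 2).div_const 2)).add
      (((hasDerivAt_id x).pow 4).div_const 24))
    convert! h using 1
    simp; ring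
  · simp
  · intro x hx
    have := sin_ge_t3 x hx
    linarith

lemma cos_le_t4 (x : ℝ) : cos x ≤ 1 - x ^ 2 / 2 + x ^ 4 / 24 := by
  rcases le_total 0 x with h | h
  · exact cos_le_t4_nonneg x h
  · have := cos_le_t4_nonneg (-x) (by linarith)
    rw [cos_neg] at this
    have e1 : (-x) ^ 2 = x ^ 2 := by ring
    have e2 : (-x) ^ 4 = x ^ 4 := by ring
    rwa [e1, e2] at this

lemma sin_le_t5 : ∀ x : ℝ, 0 ≤ x → sin x ≤ x - x ^ 3 / 6 + x ^ 5 / 120 := by
  apply le_of_deriv_le_nonneg (f' := fun x => cos x) (g' := fun x => 1 - x ^ 2 / 2 + x ^ 4 / 24)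
  · intro x; exact hasDerivAt_sin x
  · intro x
    have h := (((hasDerivAt_id x).sub (((hasDerivAt_id x).pow 3).div_const 6)).add
      (((hasDerivAt_id x).pow 5).div_const 120))
    convert! h using 1
    simp; ring
  · simp
  · intro x hx
    exact cos_le_t4 x

end Pool.Agent.Helper99.Ring
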