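import Mathlib
import Pool.Agent.Helper99.RingKernel

namespace Pool.Agent.Helper99.Ring

open Real Finset

variable {N : ℕ}

/-- Sum over ordered pairs `i < j`. -/
noncomputable def PS (F : Fin N → Fin N → ℝ) : ℝ := ∑ i, ∑ j, if i < j then F i j else 0

lemma PS_add (F G : Fin N → Fin N → ℝ) : PS (fun i j => F i j + G i j) = PS F + PS G := by
  unfold PS
  rw [← sum_add_distrib]
  refine sum_congr rfl fun i _ => ?_
  rw [← sum_add_distrib]
  refine sum_congr rfl fun j _ => ?_
  split_ifs <;> simp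

lemma PS_smul (c : ℝ) (F : Fin N → Fin N → ℝ) : PS (fun i j => c * F i j) = c * PS F := by
  unfold PS
  rw [mul_sum]
  refine sum_congr rfl fun i _ => ?_
  rw [mul_sum]
  refine sum_congr rfl fun j _ => ?_
  split_ifs <;> simp

lemma PS_congr {F G : Fin N → Fin N → ℝ} (h : ∀ i j, i < j → F i j = G i j) : PS F = PS G := by
  unfold PS
  refine sum_congr rfl fun i _ => sum_congr rfl fun j _ => ?_
  split_ifs with hij
  · exact h i j hij
  · rfl

lemma PS_le {F G : Fin N → Fin N → ℝ} (h : ∀ i j, i < j → F i j ≤ G i j) : PS F ≤ PS G := by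
  unfold PS
  refine sum_le_sum fun i _ => sum_le_sum fun j _ => ?_
  split_ifs with hij
  · exact h i j hij
  · exact le_rfl

lemma PS_eq_zero {F : Fin N → Fin N → ℝ} (h : ∀ i j, i < j → 0 ≤ F i j) (h0 : PS F = 0) :
    ∀ i j, i < j → F i j = 0 := by
  intro i j hij
  unfold PS at h0
  have h1 : ∀ i ∈ (univ : Finset (Fin N)), 0 ≤ ∑ j, if i < j then F i j else 0 := by
    intro i _
    apply sum_nonneg
    intro j _
    split_ifs with hh
    · exact h i j hh
    · exact le_rfl
  have h2 := (sum_eq_zero_iff_of_nonneg h1).1 h0 i (mem_univ _)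
  have h3 : ∀ j ∈ (univ : Finset (Fin N)), 0 ≤ (if i < j then F i j else 0) := by
    intro j _
    split_ifs with hh
    · exact h i j hh
    · exact le_rfl
  have h4 := (sum_eq_zero_iff_of_nonneg h3).1 h2 j (mem_univ _)
  simpa [hij] using h4

/-- Summation by parts (antisymmetric version). -/
lemma sum_anti (X : Fin N → ℝ) (P : Fin N → Fin N → ℝ) :
    ∑ k, X k * ((∑ j, if k < j then P k j else 0) - (∑ j, if j < k then P j k else 0)) =
      PS (fun i j => (X i - X j) * P i j) := by
  unfold PS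
  have h1 : ∑ k, X k * ((∑ j, if k < j then P k j else 0) - (∑ j, if j < k then P j k else 0)) =
      (∑ k, ∑ j, if k < j then X k * P k j else 0) -
      (∑ k, ∑ j, if j < k then X k * P j k else 0) := by
    rw [← sum_sub_distrib]
    refine sum_congr rfl fun k _ => ?_
    rw [mul_sub, mul_sum, mul_sum]
    congr 1 <;>
    · refine sum_congr rfl fun j _ => ?_
      split_ifs <;> simp
  rw [h1, sum_comm (f := fun k j => if j < k then X k * P j k else 0), ← sum_sub_distrib]
  refine sum_congr rfl fun i _ => ?_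
  rw [← sum_sub_distrib]
  refine sum_congr rfl fun j _ => ?_
  split_ifs
  · ring
  · simp

/-- Summation by parts (symmetric version). -/
lemma sum_symm (X : Fin N → ℝ) (P : Fin N → Fin N → ℝ) :
    ∑ k, X k * ((∑ j, if k < j then P k j else 0) + (∑ j, if j < k then P j k else 0)) =
      PS (fun i j => (X i + X j) * P i j) := by
  unfold PS
  have h1 : ∑ k, X k * ((∑ j, if k < j then P k j else 0) + (∑ j, if j < k then P j k else 0)) =
      (∑ k, ∑ j, if k < j then X k * P k j else 0) +
      (∑ k, ∑ j, if j < k then X k * P j k else 0) := by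
    rw [← sum_add_distrib]
    refine sum_congr rfl fun k _ => ?_
    rw [mul_add, mul_sum, mul_sum]
    congr 1 <;>
    · refine sum_congr rfl fun j _ => ?_
      split_ifs <;> simp
  rw [h1, sum_comm (f := fun k j => if j < k then X k * P j k else 0), ← sum_add_distrib]
  refine sum_congr rfl fun i _ => ?_
  rw [← sum_add_distrib]
  refine sum_congr rfl fun j _ => ?_
  split_ifs
  · ring
  · simp

/-- angle of the regular configuration -/
noncomputable def aa (i j : Fin N) : ℝ := π * (((j : ℕ) : ℝ) - ((i : ℕ) : ℝ)) / N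

noncomputable def hatf (f : ℝ → ℝ) (p : Fin N) : ℝ :=
  if (p : ℕ) = 0 then 0 else f (π * ((p : ℕ) : ℝ) / N)

lemma hatf_sub [NeZero N] (f : ℝ → ℝ) (i j : Fin N) (hij : i < j) :
    hatf f (j - i) = f (aa i j) := by
  have h1 : ((j - i : Fin N) : ℕ) = (j : ℕ) - (i : ℕ) := Fin.sub_val_of_le hij.le
  have h2 : (i : ℕ) < (j : ℕ) := hij
  unfold hatf aa
  rw [h1, if_neg (by omega), Nat.cast_sub h2.le]

lemma hatf_neg [NeZero N] (f : ℝ → ℝ) (e : ℝ) (hf : ∀ t, 0 < t → t < π → f (π - t) = e * f t)
    (p : Fin N) : hatf f (-p) = e * hatf f p := by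
  have hN : (0 : ℝ) < N := by
    have := Nat.pos_of_ne_zero (NeZero.ne N)
    exact_mod_cast this
  by_cases hp : (p : ℕ) = 0
  · have : p = 0 := Fin.ext (by simpa using hp)
    subst this
    simp [hatf]
  · have h1 : ((-p : Fin N) : ℕ) = N - (p : ℕ) := by
      rw [Fin.val_neg']
      apply Nat.mod_eq_of_lt
      have := p.2
      omega
    have hlt : (p : ℕ) < N := p.2
    unfold hatf
    rw [h1, if_neg (by omega), if_neg hp, Nat.cast_sub hlt.le]
    have hp0 : (0 : ℝ) < ((p : ℕ) : ℝ) := by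
      exact_mod_cast Nat.pos_of_ne_zero hp
    have hpN : ((p : ℕ) : ℝ) < N := by exact_mod_cast hlt
    have e1 : π * ((N : ℝ) - ((p : ℕ) : ℝ)) / N = π - π * ((p : ℕ) : ℝ) / N := by
      field_simp
    rw [e1]
    apply hf
    · positivity
    · rw [div_lt_iff₀ hN]
      exact mul_lt_mul_of_pos_left hpN pi_pos

lemma sum_shift [NeZero N] (g : Fin N → ℝ) (k : Fin N) : ∑ j, g (j - k) = ∑ j, g j :=
  (Equiv.subRight k).sum_comp g

lemma row_anti [NeZero N] (f : ℝ → ℝ) (hf : ∀ t, 0 < t → t < π → f (π - t) = - f t) (k : Fin N) :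
    (∑ j, if k < j then f (aa k j) else 0) - (∑ j, if j < k then f (aa j k) else 0) = 0 := by
  have h1 : (∑ j, if k < j then f (aa k j) else 0) - (∑ j, if j < k then f (aa j k) else 0) =
      ∑ j, hatf f (j - k) := by
    rw [← sum_sub_distrib]
    refine sum_congr rfl fun j _ => ?_
    rcases lt_trichotomy k j with h | h | h
    · rw [if_pos h, if_neg (not_lt.2 h.le), hatf_sub f k j h]; ring
    · subst h
      simp [hatf]
    · rw [if_neg (not_lt.2 h.le), if_pos h, ← hatf_sub f j k h]
      have := hatf_neg f (-1) (by intro t h1 h2; rw [hf t h1 h2]; ring) (k - j)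
      rw [neg_sub] at this
      rw [this]; ring
  rw [h1, sum_shift]
  have h2 : ∑ j : Fin N, hatf f j = ∑ j : Fin N, hatf f (-j) :=
    (Equiv.sum_comp (Equiv.neg (Fin N)) (hatf f)).symm
  have h3 : ∑ j : Fin N, hatf f (-j) = - ∑ j : Fin N, hatf f j := by
    rw [← sum_neg_distrib]
    refine sum_congr rfl fun j _ => ?_
    rw [hatf_neg f (-1) (by intro t h1 h2; rw [hf t h1 h2]; ring) j]; ring
  linarith

lemma row_symm [NeZero N] (f : ℝ → ℝ) (hf : ∀ t, 0 < t → t < π → f (π - t) = f t) (k : Fin N) :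
    (∑ j, if k < j then f (aa k j) else 0) + (∑ j, if j < k then f (aa j k) else 0) =
      ∑ j : Fin N, hatf f j := by
  rw [← sum_shift (hatf f) k, ← sum_add_distrib]
  refine sum_congr rfl fun j _ => ?_
  rcases lt_trichotomy k j with h | h | h
  · rw [if_pos h, if_neg (not_lt.2 h.le), hatf_sub f k j h]; ring
  · subst h
    simp [hatf]
  · rw [if_neg (not_lt.2 h.le), if_pos h, ← hatf_sub f j k h]
    have := hatf_neg f 1 (by intro t h1 h2; rw [hf t h1 h2]; ring) (k - j)
    rw [neg_sub] at this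
    rw [this]; ring

lemma PS_anti [NeZero N] (f : ℝ → ℝ) (hf : ∀ t, 0 < t → t < π → f (π - t) = - f t)
    (X : Fin N → ℝ) : PS (fun i j => (X i - X j) * f (aa i j)) = 0 := by
  rw [← sum_anti X (fun i j => f (aa i j))]
  apply sum_eq_zero
  intro k _
  rw [row_anti f hf k, mul_zero]

lemma PS_symm [NeZero N] (f : ℝ → ℝ) (hf : ∀ t, 0 < t → t < π → f (π - t) = f t)
    (X : Fin N → ℝ) : PS (fun i j => (X i + X j) * f (aa i j)) =
      (∑ k, X k) * ∑ j : Fin N, hatf f j := by
  rw [← sum_symm X (fun i j => f (aa i j)), sum_mul]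
  refine sum_congr rfl fun k _ => ?_
  rw [row_symm f hf k]

/-- sine sums -/
lemma row_sin (θ : Fin N → ℝ) (k : Fin N) :
    (∑ j, if k < j then sin (θ j - θ k) else 0) - (∑ j, if j < k then sin (θ k - θ j) else 0) =
      (∑ j, sin (θ j)) * cos (θ k) - (∑ j, cos (θ j)) * sin (θ k) := by
  rw [← sum_sub_distrib, sum_mul, sum_mul, ← sum_sub_distrib]
  refine sum_congr rfl fun j _ => ?_
  rw [← sin_sub]
  rcases lt_trichotomy k j with h | h | h
  · rw [if_pos h, if_neg (not_lt.2 h.le)]; ring
  · subst h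
    simp
  · rw [if_neg (not_lt.2 h.le), if_pos h, ← neg_sub (θ j) (θ k), sin_neg]; ring

end Pool.Agent.Helper99.Ring
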