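import Mathlib
import Pool.Agent.Helper99.RingSums

namespace Pool.Agent.Helper99.Ring

open Real Finset

variable {N : ℕ}

noncomputable def bb (θ : Fin N → ℝ) (i j : Fin N) : ℝ := (θ j - θ i) / 2

/-- `V'(x)` for `x = 2 t`. -/
noncomputable def Vp (t : ℝ) : ℝ := sin (2 * t) - w t / 4

/-- Critical equations for the angular potential, in sorted form. -/
def Crit (θ : Fin N → ℝ) : Prop :=
  ∀ k, (∑ j, if k < j then Vp (bb θ k j) else 0) - (∑ j, if j < k then Vp (bb θ j k) else 0) = 0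

lemma crit_PS (θ : Fin N → ℝ) (hc : Crit θ) (X : Fin N → ℝ) :
    PS (fun i j => (X i - X j) * Vp (bb θ i j)) = 0 := by
  rw [← sum_anti X (fun i j => Vp (bb θ i j))]
  apply sum_eq_zero
  intro k _
  rw [hc k, mul_zero]

lemma PS_sin (θ : Fin N → ℝ) (hs : ∑ j, sin (θ j) = 0) (X : Fin N → ℝ) :
    PS (fun i j => (X i - X j) * sin (2 * bb θ i j)) =
      - (∑ j, cos (θ j)) * ∑ k, X k * sin (θ k) := by
  have h := sum_anti X (fun i j => sin (2 * bb θ i j))
  rw [← h, mul_sum]
  refine sum_congr rfl fun k _ => ?_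
  have h2 := row_sin θ k
  have h3 : (∑ j, if k < j then sin (2 * bb θ k j) else 0) -
      (∑ j, if j < k then sin (2 * bb θ j k) else 0) =
      (∑ j, if k < j then sin (θ j - θ k) else 0) -
      (∑ j, if j < k then sin (θ k - θ j) else 0) := by
    have e : ∀ i j : Fin N, 2 * bb θ i j = θ j - θ i := by
      intro i j; unfold bb; ring
    simp only [e]
  rw [h3, h2, hs]
  ring

lemma PS_w (θ : Fin N → ℝ) (hs : ∑ j, sin (θ j) = 0) (hc : Crit θ) (X : Fin N → ℝ) :
    PS (fun i j => (X i - X j) * w (bb θ i j)) =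
      - 4 * (∑ j, cos (θ j)) * ∑ k, X k * sin (θ k) := by
  have h1 := crit_PS θ hc X
  have h2 := PS_sin θ hs X
  have h3 : PS (fun i j => (X i - X j) * Vp (bb θ i j)) =
      PS (fun i j => (X i - X j) * sin (2 * bb θ i j)) +
      (-1/4) * PS (fun i j => (X i - X j) * w (bb θ i j)) := by
    rw [← PS_smul, ← PS_add]
    apply PS_congr
    intro i j _
    unfold Vp; ring
  rw [h1, h2] at h3
  linarith

/-- deviation from equally spaced angles -/
noncomputable def DD (θ : Fin N → ℝ) (k : Fin N) : ℝ := θ k - 2 * π * ((k : ℕ) : ℝ) / N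

lemma w_anti (t : ℝ) : w (π - t) = - w t := by
  unfold w; rw [cos_pi_sub, sin_pi_sub]; ring

lemma fA_symm (t : ℝ) : fA (π - t) = fA t := by
  unfold fA; rw [cos_pi_sub, sin_pi_sub]; ring

lemma fB_anti (t : ℝ) : fB (π - t) = - fB t := by
  unfold fB; rw [cos_pi_sub, sin_pi_sub]; ring

lemma ray_identity [NeZero N] (θ : Fin N → ℝ) (hs : ∑ j, sin (θ j) = 0) (hc : Crit θ) :
    PS (fun i j => (w (aa i j) - w (bb θ i j)) * (bb θ i j - aa i j)) =
      - 2 * (∑ j, cos (θ j)) * ∑ k, DD θ k * sin (θ k) := by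
  have h1 := PS_w θ hs hc (DD θ)
  have h2 := PS_anti w (fun t _ _ => w_anti t) (DD θ)
  have h3 : PS (fun i j => (w (aa i j) - w (bb θ i j)) * (bb θ i j - aa i j)) =
      (-1/2) * PS (fun i j => (DD θ i - DD θ j) * w (aa i j)) +
      (1/2) * PS (fun i j => (DD θ i - DD θ j) * w (bb θ i j)) := by
    rw [← PS_smul, ← PS_smul, ← PS_add]
    apply PS_congr
    intro i j _
    have : bb θ i j - aa i j = - (DD θ i - DD θ j) / 2 := by
      unfold bb aa DD; ring
    rw [this]; ring
  rw [h3, h2, h1]; ring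

/-- `∑_p A(π p / N)`. -/
noncomputable def LA (N : ℕ) : ℝ := ∑ j : Fin N, hatf fA j

lemma moebius_identity [NeZero N] (θ : Fin N → ℝ) (hs : ∑ j, sin (θ j) = 0) (hc : Crit θ)
    (hb : ∀ i j, i < j → sin (bb θ i j) ≠ 0) :
    PS (fun i j => cos ((θ i + θ j) / 2) * rr (aa i j) (bb θ i j)) =
      2 * (∑ j, cos (θ j)) * (∑ k, sin (θ k) ^ 2 - LA N / 4) := by
  have h1 := PS_w θ hs hc (fun k => sin (θ k))
  have h2 := PS_anti fB (fun t _ _ => fB_anti t) (fun k => sin (θ k))
  have h3 := PS_symm fA (fun t _ _ => fA_symm t) (fun k => cos (θ k))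
  have h4 : PS (fun i j => cos ((θ i + θ j) / 2) * rr (aa i j) (bb θ i j)) =
      (-1/2) * PS (fun i j => (sin (θ i) - sin (θ j)) * w (bb θ i j)) +
      ((-1/2) * PS (fun i j => (cos (θ i) + cos (θ j)) * fA (aa i j)) +
      (1/2) * PS (fun i j => (sin (θ i) - sin (θ j)) * fB (aa i j))) := by
    rw [← PS_smul, ← PS_smul, ← PS_smul, ← PS_add, ← PS_add]
    apply PS_congr
    intro i j hij
    have hne := hb i j hij
    have e1 : sin (θ i) - sin (θ j) = - 2 * cos ((θ i + θ j) / 2) * sin (bb θ i j) := by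
      rw [sin_sub_sin]
      have : (θ i - θ j) / 2 = - bb θ i j := by unfold bb; ring
      rw [this, sin_neg]; ring
    have e2 : cos (θ i) + cos (θ j) = 2 * cos ((θ i + θ j) / 2) * cos (bb θ i j) := by
      rw [cos_add_cos]
      have : (θ i - θ j) / 2 = - bb θ i j := by unfold bb; ring
      rw [this, cos_neg]
    rw [e1, e2]
    unfold rr w
    field_simp
    ring
  rw [h4, h1, h2, h3]
  have h5 : ∑ k, sin (θ k) * sin (θ k) = ∑ k, sin (θ k) ^ 2 :=
    sum_congr rfl fun k _ => by ring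
  rw [h5]
  unfold LA
  ring

/-- The key inequality: either the configuration is regular, or
`LA/4 ≤ ∑ sin² θ_k - ∑ D_k sin θ_k`. -/
lemma key_dichotomy [NeZero N] (θ : Fin N → ℝ) (hs : ∑ j, sin (θ j) = 0)
    (hm : 0 ≤ ∑ j, cos (θ j)) (hc : Crit θ)
    (hb : ∀ i j, i < j → 0 < bb θ i j ∧ bb θ i j < π) :
    (∀ i j, i < j → bb θ i j = aa i j) ∨
      LA N / 4 ≤ ∑ k, (sin (θ k) ^ 2 - DD θ k * sin (θ k)) := by
  have hN : (0 : ℝ) < N := by
    have := Nat.pos_of_ne_zero (NeZero.ne N)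
    exact_mod_cast this
  have ha : ∀ i j : Fin N, i < j → 0 < aa i j ∧ aa i j < π := by
    intro i j hij
    have h1 : ((i : ℕ) : ℝ) < ((j : ℕ) : ℝ) := by exact_mod_cast hij
    have h2 : ((j : ℕ) : ℝ) < N := by exact_mod_cast j.2
    have h3 : (0 : ℝ) ≤ ((i : ℕ) : ℝ) := by positivity
    unfold aa
    constructor
    · apply div_pos (mul_pos pi_pos (by linarith)) hN
    · rw [div_lt_iff₀ hN]
      exact mul_lt_mul_of_pos_left (by linarith) pi_pos
  have hsb : ∀ i j, i < j → sin (bb θ i j) ≠ 0 := fun i j hij =>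
    (sin_pos_of_pos_of_lt_pi (hb i j hij).1 (hb i j hij).2).ne'
  have h1 := ray_identity θ hs hc
  have h2 := moebius_identity θ hs hc hsb
  rcases hm.eq_or_lt with hm0 | hmpos
  · left
    rw [← hm0] at h1
    have h3 : PS (fun i j => (w (aa i j) - w (bb θ i j)) * (bb θ i j - aa i j)) = 0 := by
      rw [h1]; ring
    have h4 := PS_eq_zero (F := fun i j => (w (aa i j) - w (bb θ i j)) * (bb θ i j - aa i j))
      (by
        intro i j hij
        by_cases h : aa i j = bb θ i j
        · simp only [h]; simp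
        · exact (w_gap_pos _ _ (ha i j hij).1 (ha i j hij).2 (hb i j hij).1 (hb i j hij).2 h).le)
      h3
    intro i j hij
    by_contra hne
    have h5 := h4 i j hij
    have h6 := w_gap_pos _ _ (ha i j hij).1 (ha i j hij).2 (hb i j hij).1 (hb i j hij).2
      (Ne.symm hne)
    linarith
  · right
    have h3 : - PS (fun i j => cos ((θ i + θ j) / 2) * rr (aa i j) (bb θ i j)) ≤
        PS (fun i j => (w (aa i j) - w (bb θ i j)) * (bb θ i j - aa i j)) := by
      have e : - PS (fun i j => cos ((θ i + θ j) / 2) * rr (aa i j) (bb θ i j)) =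
        PS (fun i j => (-1) * (cos ((θ i + θ j) / 2) * rr (aa i j) (bb θ i j))) := by
        rw [PS_smul]; ring
      rw [e]
      apply PS_le
      intro i j hij
      have k1 := kernel_ineq _ _ (ha i j hij).1 (ha i j hij).2 (hb i j hij).1 (hb i j hij).2
      refine le_trans ?_ k1
      have k2 : |(-1) * (cos ((θ i + θ j) / 2) * rr (aa i j) (bb θ i j))| ≤
          |rr (aa i j) (bb θ i j)| := by
        rw [abs_mul, abs_mul]
        have := abs_cos_le_one ((θ i + θ j) / 2)
        have h0 := abs_nonneg (rr (aa i j) (bb θ i j))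
        simp only [abs_neg, abs_one, one_mul]
        nlinarith
      exact (le_abs_self _).trans k2
    rw [h1, h2] at h3
    have h4 : (∑ j, cos (θ j)) * (LA N / 4) ≤
        (∑ j, cos (θ j)) * (∑ k, sin (θ k) ^ 2 - ∑ k, DD θ k * sin (θ k)) := by
      nlinarith
    have h5 := le_of_mul_le_mul_left h4 hmpos
    rw [sum_sub_distrib]
    exact h5

end Pool.Agent.Helper99.Ring
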