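import Mathlib
import Pool.Agent.Helper99.RingCore
import Pool.Agent.Helper99.RingTaylor

namespace Pool.Agent.Helper99.Ring

open Real Finset

lemma inv_sin_aux (x : ℝ) (hx : 0 < x) (hx' : x ≤ π / 2) :
    1 / x + 1 / (π - x) - 1 / π ≤ 1 / sin x := by
  have hpi := pi_gt_d2
  have hpi' := pi_lt_d2
  have hs : 0 < sin x := sin_pos_of_pos_of_lt_pi hx (by linarith)
  have hsin := sin_le_t5 x hx.le
  have hP : 0 < 1 - x ^ 2 / 6 + x ^ 4 / 120 := by nlinarith [sq_nonneg (x ^ 2 - 10)]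
  have hb : 1 / (x * (1 - x ^ 2 / 6 + x ^ 4 / 120)) ≤ 1 / sin x := by
    apply one_div_le_one_div_of_le hs
    calc sin x ≤ x - x ^ 3 / 6 + x ^ 5 / 120 := hsin
      _ = _ := by ring
  refine le_trans ?_ hb
  have hpx : 0 < π - x := by linarith
  have e : 1 / x + 1 / (π - x) - 1 / π = (π ^ 2 - π * x + x ^ 2) / (x * (π - x) * π) := by
    field_simp
    ring
  rw [e, div_le_div_iff₀ (by positivity) (by positivity)]
  -- (π² - πx + x²) x P ≤ x (π - x) π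
  have key : (π ^ 2 - π * x + x ^ 2) * (1 - x ^ 2 / 6 + x ^ 4 / 120) ≤ (π - x) * π := by
    have h1 : x ^ 2 * (1 - x ^ 2 / 6 + x ^ 4 / 120) ≤ π * (π - x) * (x ^ 2 / 6 - x ^ 4 / 120) := by
      have h2 : 1 - x ^ 2 / 6 + x ^ 4 / 120 ≤ π * (π - x) * (1 / 6 - x ^ 2 / 120) := by
        have h3 : x ≤ 1.575 := by linarith
        have h4 : (3.14 : ℝ) * (3.14 - x) ≤ π * (π - x) := by nlinarith
        have h5 : 0 < 1 / 6 - x ^ 2 / 120 := by nlinarith
        have h6 := mul_le_mul_of_nonneg_right h4 h5.le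
        refine le_trans ?_ h6
        nlinarith [mul_pos hx hx, mul_nonneg hx.le (sub_nonneg.2 h3), mul_nonneg (mul_pos hx hx).le (sub_nonneg.2 h3), mul_nonneg (mul_pos (mul_pos hx hx) hx).le (sub_nonneg.2 h3)]
      nlinarith [mul_le_mul_of_nonneg_left h2 (sq_nonneg x)]
    nlinarith
  calc (π ^ 2 - π * x + x ^ 2) * (x * (1 - x ^ 2 / 6 + x ^ 4 / 120)) =
      x * ((π ^ 2 - π * x + x ^ 2) * (1 - x ^ 2 / 6 + x ^ 4 / 120)) := by ring
    _ ≤ x * ((π - x) * π) := mul_le_mul_of_nonneg_left key hx.le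
    _ = _ := by ring

lemma inv_sin_ge (x : ℝ) (hx : 0 < x) (hx' : x < π) :
    1 / x + 1 / (π - x) - 1 / π ≤ 1 / sin x := by
  rcases le_total x (π / 2) with h | h
  · exact inv_sin_aux x hx h
  · have := inv_sin_aux (π - x) (by linarith) (by linarith)
    rw [sin_pi_sub] at this
    have e : π - (π - x) = x := by ring
    rw [e] at this
    linarith

/-- `∑_{p<N} sin (π p / N) ≤ 2 N / π`. -/
lemma sum_sin_le (N : ℕ) (hN : 2 ≤ N) :
    ∑ p ∈ range N, sin (π * (p : ℝ) / N) ≤ 2 * N / π := by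
  have hN' : (2 : ℝ) ≤ N := by exact_mod_cast hN
  have hN0 : (0 : ℝ) < N := by linarith
  set y := π / (2 * N) with hy
  have hy0 : 0 < y := by rw [hy]; positivity
  have hy1 : y < π / 2 := by
    rw [hy, div_lt_div_iff₀ (by positivity) (by positivity)]
    nlinarith [pi_pos]
  have hsy : 0 < sin y := sin_pos_of_pos_of_lt_pi hy0 (by linarith [pi_pos])
  have hcy : 0 < cos y := cos_pos_of_mem_Ioo ⟨by linarith, hy1⟩
  have htel : ∀ n : ℕ, 2 * sin y * ∑ p ∈ range n, sin (2 * (p : ℝ) * y) =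
      cos y - cos ((2 * (n : ℝ) - 1) * y) := by
    intro n
    induction n with
    | zero => simp
    | succ n ih =>
      rw [sum_range_succ, mul_add, ih]
      push_cast
      have e1 : (2 * ((n : ℝ) + 1) - 1) * y = 2 * (n : ℝ) * y + y := by ring
      have e2 : (2 * (n : ℝ) - 1) * y = 2 * (n : ℝ) * y - y := by ring
      rw [e1, e2, cos_add, cos_sub]
      ring
  have h1 := htel N
  have e3 : (2 * (N : ℝ) - 1) * y = π - y := by rw [hy]; field_simp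
  rw [e3, cos_pi_sub] at h1
  have e4 : ∑ p ∈ range N, sin (π * (p : ℝ) / N) = ∑ p ∈ range N, sin (2 * (p : ℝ) * y) := by
    refine sum_congr rfl fun p _ => ?_
    congr 1
    rw [hy]; field_simp
  rw [e4]
  have h2 : sin y * ∑ p ∈ range N, sin (2 * (p : ℝ) * y) = cos y := by linarith
  have h3 : y < tan y := lt_tan hy0 hy1
  rw [tan_eq_sin_div_cos, lt_div_iff₀ hcy] at h3
  have h4 : ∑ p ∈ range N, sin (2 * (p : ℝ) * y) = cos y / sin y := by
    rw [eq_div_iff hsy.ne', mul_comm]; exact h2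
  rw [h4]
  have e5 : 2 * (N : ℝ) / π = 1 / y := by rw [hy]; field_simp
  rw [e5, div_le_div_iff₀ hsy hy0]
  linarith

lemma LA_eq (N : ℕ) : LA N = ∑ p ∈ range N, if p = 0 then 0 else fA (π * (p : ℝ) / N) := by
  unfold LA hatf
  rw [← Fin.sum_univ_eq_sum_range (fun p => if p = 0 then 0 else fA (π * (p : ℝ) / N)) N]

/-- harmonic numbers as reals -/
noncomputable def HH (n : ℕ) : ℝ := ∑ p ∈ range n, 1 / ((p : ℝ) + 1)

lemma LA_ge (N : ℕ) (hN : 2 ≤ N) : (N : ℝ) / π * (HH (N - 1) - 1) ≤ LA N / 4 := by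
  have hN' : (2 : ℝ) ≤ N := by exact_mod_cast hN
  have hN0 : (0 : ℝ) < N := by linarith
  obtain ⟨M, rfl⟩ : ∃ M, N = M + 1 := ⟨N - 1, by omega⟩
  rw [LA_eq, sum_range_succ']
  simp only [Nat.add_eq_zero_iff, one_ne_zero, and_false, if_false, if_true, add_zero]
  have hs := sum_sin_le (M + 1) hN
  rw [sum_range_succ'] at hs
  simp only [Nat.cast_zero, mul_zero, zero_div, sin_zero, add_zero] at hs
  have h1 : ∑ p ∈ range M, (2 * (1 / (π * ((p + 1 : ℕ) : ℝ) / ((M + 1 : ℕ) : ℝ)) +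
      1 / (π - π * ((p + 1 : ℕ) : ℝ) / ((M + 1 : ℕ) : ℝ)) - 1 / π)
        - sin (π * ((p + 1 : ℕ) : ℝ) / ((M + 1 : ℕ) : ℝ))) ≤
      ∑ p ∈ range M, fA (π * ((p + 1 : ℕ) : ℝ) / ((M + 1 : ℕ) : ℝ)) := by
    apply sum_le_sum
    intro p hp
    have hp' : ((p + 1 : ℕ) : ℝ) < ((M + 1 : ℕ) : ℝ) := by
      exact_mod_cast Nat.succ_lt_succ (mem_range.1 hp)
    have hp0 : (0 : ℝ) < ((p + 1 : ℕ) : ℝ) := by positivity
    have hx0 : 0 < π * ((p + 1 : ℕ) : ℝ) / ((M + 1 : ℕ) : ℝ) := by positivity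
    have hx1 : π * ((p + 1 : ℕ) : ℝ) / ((M + 1 : ℕ) : ℝ) < π := by
      rw [div_lt_iff₀ hN0]
      exact mul_lt_mul_of_pos_left hp' pi_pos
    have h2 := inv_sin_ge _ hx0 hx1
    have hsn := sin_pos_of_pos_of_lt_pi hx0 hx1
    set x := π * ((p + 1 : ℕ) : ℝ) / ((M + 1 : ℕ) : ℝ)
    have h3 : fA x = 2 * (1 / sin x) - sin x := by
      unfold fA
      rw [cos_sq']
      field_simp
      ring
    rw [h3]
    linarith
  have h4 : ∑ p ∈ range M, (2 * (1 / (π * ((p + 1 : ℕ) : ℝ) / ((M + 1 : ℕ) : ℝ)) +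
      1 / (π - π * ((p + 1 : ℕ) : ℝ) / ((M + 1 : ℕ) : ℝ)) - 1 / π)
        - sin (π * ((p + 1 : ℕ) : ℝ) / ((M + 1 : ℕ) : ℝ))) =
      4 * (((M + 1 : ℕ) : ℝ) / π * HH M) - 2 * M / π -
        ∑ p ∈ range M, sin (π * ((p + 1 : ℕ) : ℝ) / ((M + 1 : ℕ) : ℝ)) := by
    rw [sum_sub_distrib, ← mul_sum, sum_sub_distrib, sum_add_distrib]
    have e1 : ∑ p ∈ range M, 1 / (π * ((p + 1 : ℕ) : ℝ) / ((M + 1 : ℕ) : ℝ)) =
        ((M + 1 : ℕ) : ℝ) / π * HH M := by
      unfold HH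
      rw [mul_sum]
      refine sum_congr rfl fun p _ => ?_
      push_cast
      field_simp
    have e2 : ∑ p ∈ range M, 1 / (π - π * ((p + 1 : ℕ) : ℝ) / ((M + 1 : ℕ) : ℝ)) =
        ((M + 1 : ℕ) : ℝ) / π * HH M := by
      unfold HH
      rw [mul_sum, ← sum_range_reflect]
      refine sum_congr rfl fun p hp => ?_
      have hp2 : p + 1 ≤ M := Nat.succ_le_of_lt (mem_range.1 hp)
      have : ((M - 1 - p + 1 : ℕ) : ℝ) = (M : ℝ) - p := by
        have : M - 1 - p + 1 = M - p := by omega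
        rw [this, Nat.cast_sub (by omega)]
      rw [this]
      push_cast
      have hne : (p : ℝ) + 1 ≠ 0 := by positivity
      have hM : (M : ℝ) + 1 ≠ 0 := by positivity
      have e5 : π - π * ((M : ℝ) - p) / (M + 1) = π * (p + 1) / (M + 1) := by
        field_simp
        ring
      rw [e5]
      field_simp
    rw [e1, e2]
    simp
    ring
  have h5 := h4 ▸ h1
  have hM : (M : ℝ) ≤ ((M + 1 : ℕ) : ℝ) := by push_cast; linarith
  have e6 : M + 1 - 1 = M := by omega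
  rw [e6]
  have h7 : 2 * (M : ℝ) / π ≤ 2 * ((M + 1 : ℕ) : ℝ) / π := by
    apply div_le_div_of_nonneg_right _ pi_pos.le
    linarith
  have h8 : ((M + 1 : ℕ) : ℝ) / π * (HH M - 1) = ((M + 1 : ℕ) : ℝ) / π * HH M - ((M + 1 : ℕ) : ℝ) / π := by
    ring
  rw [h8]
  have h9 : 2 * ((M + 1 : ℕ) : ℝ) / π = 2 * (((M + 1 : ℕ) : ℝ) / π) := by ring
  rw [h9] at h7 hs
  linarith

end Pool.Agent.Helper99.Ring
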