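import Mathlib
import Pool.Agent.Helper99.RingCore

namespace Pool.Agent.Helper99.Ring

open Finset

/-- Statement proved by the core theorem. -/
def CoreStatement (N : ℕ) : Prop :=
  ∀ θ : Fin N → ℝ, StrictMono θ → (∀ k, -Real.pi < θ k ∧ θ k ≤ Real.pi) →
    ∑ j, Real.sin (θ j) = 0 → 0 ≤ ∑ j, Real.cos (θ j) → Crit θ →
    ∀ i j, i < j → bb θ i j = aa i j

lemma norm_exp_sub (α β : ℝ) :
    ‖Complex.exp (α * Complex.I) - Complex.exp (β * Complex.I)‖ =
      |2 * Real.sin ((α - β) / 2)| := by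
  have h1 : Complex.exp (α * Complex.I) - Complex.exp (β * Complex.I) =
      Complex.exp (β * Complex.I) * (Complex.exp (Complex.I * ((α - β : ℝ) : ℂ)) - 1) := by
    rw [mul_sub, ← Complex.exp_add, mul_one]
    congr 2
    push_cast
    ring
  rw [h1, norm_mul, Complex.norm_exp_ofReal_mul_I, one_mul,
    Complex.norm_exp_I_mul_ofReal_sub_one, Real.norm_eq_abs]

lemma im_conj_exp (α β : ℝ) :
    ((starRingEnd ℂ) (Complex.exp (α * Complex.I)) * Complex.exp (β * Complex.I)).im =
      Real.sin (β - α) := by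
  rw [← Complex.exp_conj, ← Complex.exp_add]
  have : (starRingEnd ℂ) (α * Complex.I) + β * Complex.I = ((β - α : ℝ) : ℂ) * Complex.I := by
    rw [map_mul, Complex.conj_ofReal, Complex.conj_I]
    push_cast
    ring
  rw [this, Complex.exp_ofReal_mul_I_im]

lemma pair_force (b : ℝ) (hb : 0 < b) (hb' : b < Real.pi) :
    Real.sin (2 * b) * (1 - 1 / |2 * Real.sin b| ^ 3) = Vp b := by
  have hs : 0 < Real.sin b := Real.sin_pos_of_pos_of_lt_pi hb hb'
  rw [abs_of_pos (by positivity)]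
  unfold Vp w
  rw [Real.sin_two_mul]
  field_simp
  ring

theorem geom {N : ℕ} (hN : 0 < N) (hcore : CoreStatement N) (z : Fin N → ℂ)
    (hz : ∀ i, ‖z i‖ = 1) (hinj : Function.Injective z)
    (heq : ∀ i, ∑ j, ((starRingEnd ℂ) (z i) * z j).im * (1 - 1 / ‖z i - z j‖ ^ 3) = 0) :
    ∃ r : ℂ, r ≠ 0 ∧ ∃ σ : Equiv.Perm (Fin N), ∀ k : Fin N,
      z (σ k) = r * Complex.exp (2 * (Real.pi : ℂ) * Complex.I * ((k : ℕ) : ℂ) / (N : ℂ)) := by
  classical
  have : NeZero N := ⟨hN.ne'⟩
  -- rotation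
  obtain ⟨ω, hω1, hω⟩ : ∃ ω : ℂ, ‖ω‖ = 1 ∧ ω * (∑ j, z j) = ((‖∑ j, z j‖ : ℝ) : ℂ) := by
    by_cases h0 : ∑ j, z j = 0
    · exact ⟨1, by simp, by rw [h0]; simp⟩
    · refine ⟨(starRingEnd ℂ) (∑ j, z j) / ((‖∑ j, z j‖ : ℝ) : ℂ), ?_, ?_⟩
      · rw [norm_div, Complex.norm_conj, Complex.norm_real, norm_norm, div_self]
        exact norm_ne_zero_iff.2 h0
      · have hne : ((‖∑ j, z j‖ : ℝ) : ℂ) ≠ 0 := by
          rw [Complex.ofReal_ne_zero]; exact norm_ne_zero_iff.2 h0
        rw [div_mul_eq_mul_div, Complex.conj_mul', div_eq_iff hne]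
        ring
  have hω0 : ω ≠ 0 := by
    intro h; rw [h] at hω1; simp at hω1
  set y : Fin N → ℂ := fun i => ω * z i with hy
  have hy1 : ∀ i, ‖y i‖ = 1 := by
    intro i; rw [hy]; simp only; rw [norm_mul, hω1, hz i, one_mul]
  set t : Fin N → ℝ := fun i => Complex.arg (y i) with ht
  have hyt : ∀ i, y i = Complex.exp (t i * Complex.I) := by
    intro i
    have := Complex.norm_mul_exp_arg_mul_I (y i)
    rw [hy1 i] at this
    rw [ht]
    simpa using! this.symm
  have htinj : Function.Injective t := by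
    intro i j hij
    apply hinj
    have h1 : y i = y j := by rw [hyt i, hyt j, hij]
    rw [hy] at h1
    exact mul_left_cancel₀ hω0 h1
  set σ := Tuple.sort t with hσ
  set θ : Fin N → ℝ := t ∘ σ with hθ
  have hmono : StrictMono θ :=
    (Tuple.monotone_sort t).strictMono_of_injective (htinj.comp σ.injective)
  have hr : ∀ k, -Real.pi < θ k ∧ θ k ≤ Real.pi := fun k =>
    ⟨Complex.neg_pi_lt_arg _, Complex.arg_le_pi _⟩
  have hsum : ∑ j, y j = ((‖∑ j, z j‖ : ℝ) : ℂ) := by
    rw [hy, ← mul_sum, hω]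
  have hre : ∑ j, Real.cos (θ j) = ‖∑ j, z j‖ := by
    have h1 : ∑ j, Real.cos (θ j) = ∑ j, Real.cos (t j) :=
      Equiv.sum_comp σ (fun j => Real.cos (t j))
    rw [h1]
    have h2 := congrArg Complex.re hsum
    rw [Complex.re_sum, Complex.ofReal_re] at h2
    rw [← h2]
    refine sum_congr rfl fun j _ => ?_
    rw [hyt j, Complex.exp_ofReal_mul_I_re]
  have him : ∑ j, Real.sin (θ j) = 0 := by
    have h1 : ∑ j, Real.sin (θ j) = ∑ j, Real.sin (t j) :=
      Equiv.sum_comp σ (fun j => Real.sin (t j))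
    rw [h1]
    have h2 := congrArg Complex.im hsum
    rw [Complex.im_sum, Complex.ofReal_im] at h2
    rw [← h2]
    refine sum_congr rfl fun j _ => ?_
    rw [hyt j, Complex.exp_ofReal_mul_I_im]
  have hcrit : Crit θ := by
    intro k
    have h1 := heq (σ k)
    have h2 : ∑ j, ((starRingEnd ℂ) (z (σ k)) * z j).im * (1 - 1 / ‖z (σ k) - z j‖ ^ 3) =
        ∑ j, ((starRingEnd ℂ) (z (σ k)) * z (σ j)).im *
          (1 - 1 / ‖z (σ k) - z (σ j)‖ ^ 3) :=
      (Equiv.sum_comp σ (fun j => ((starRingEnd ℂ) (z (σ k)) * z j).im *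
        (1 - 1 / ‖z (σ k) - z j‖ ^ 3))).symm
    rw [h2] at h1
    rw [← sum_sub_distrib]
    refine Eq.trans ?_ h1
    refine sum_congr rfl fun j _ => ?_
    have h3 : (starRingEnd ℂ) (z (σ k)) * z (σ j) = (starRingEnd ℂ) (y (σ k)) * y (σ j) := by
      rw [hy]
      simp only [map_mul]
      have : (starRingEnd ℂ) ω * ω = 1 := by
        rw [Complex.conj_mul', hω1]; simp
      calc (starRingEnd ℂ) (z (σ k)) * z (σ j) =
          ((starRingEnd ℂ) ω * ω) * ((starRingEnd ℂ) (z (σ k)) * z (σ j)) := by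
            rw [this, one_mul]
        _ = _ := by ring
    have h4 : ‖z (σ k) - z (σ j)‖ = ‖y (σ k) - y (σ j)‖ := by
      rw [hy]
      simp only
      rw [← mul_sub, norm_mul, hω1, one_mul]
    rw [h3, h4, hyt (σ k), hyt (σ j), im_conj_exp, norm_exp_sub]
    have h5 : ∀ m, t (σ m) = θ m := fun m => rfl
    rw [h5, h5]
    have hbnd : ∀ a b : Fin N, a < b → 0 < bb θ a b ∧ bb θ a b < Real.pi := by
      intro a b hab
      have := hmono hab
      have q1 := (hr a).1
      have q2 := (hr b).2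
      unfold bb
      constructor <;> linarith
    rcases lt_trichotomy k j with h | h | h
    · rw [if_pos h, if_neg (not_lt.2 h.le), sub_zero,
        ← pair_force _ (hbnd k j h).1 (hbnd k j h).2]
      have e1 : θ j - θ k = 2 * bb θ k j := by unfold bb; ring
      have e2 : (θ k - θ j) / 2 = - bb θ k j := by unfold bb; ring
      rw [e1, e2, Real.sin_neg, mul_neg, abs_neg]
    · subst h
      simp
    · rw [if_neg (not_lt.2 h.le), if_pos h, zero_sub,
        ← pair_force _ (hbnd j k h).1 (hbnd j k h).2]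
      have e1 : θ j - θ k = -(2 * bb θ j k) := by unfold bb; ring
      have e2 : (θ k - θ j) / 2 = bb θ j k := by unfold bb; ring
      rw [e1, e2, Real.sin_neg]
      ring
  have hfin := hcore θ hmono hr him (by rw [hre]; exact norm_nonneg _) hcrit
  -- explicit angles
  have hang : ∀ k : Fin N, θ k = θ 0 + 2 * Real.pi * ((k : ℕ) : ℝ) / N := by
    intro k
    by_cases hk : k = 0
    · subst hk; simp
    · have h0k : (0 : Fin N) < k := by
        rw [Fin.lt_def]
        apply Nat.pos_of_ne_zero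
        intro h0
        apply hk
        apply Fin.ext
        rw [h0]
        rfl
      have h1 := hfin 0 k h0k
      unfold bb aa at h1
      have h2 : ((0 : Fin N) : ℕ) = 0 := rfl
      rw [h2] at h1
      push_cast at h1
      have h3 : θ k = θ 0 + 2 * (Real.pi * (((k : ℕ) : ℝ) - 0) / N) := by
        rw [← h1]; ring
      rw [h3]; ring
  refine ⟨ω⁻¹ * Complex.exp (θ 0 * Complex.I), ?_, σ, ?_⟩
  · exact mul_ne_zero (inv_ne_zero hω0) (Complex.exp_ne_zero _)
  · intro k
    have h1 : y (σ k) = Complex.exp (θ k * Complex.I) := hyt (σ k)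
    have h2 : z (σ k) = ω⁻¹ * y (σ k) := by
      rw [hy]; simp only; rw [← mul_assoc, inv_mul_cancel₀ hω0, one_mul]
    rw [h2, h1, mul_assoc, ← Complex.exp_add]
    congr 2
    rw [hang k]
    push_cast
    ring

end Pool.Agent.Helper99.Ring
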