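import Mathlib
import Pool.Agent.Helper99.RingGeom

namespace Pool.Agent.Helper99.Ring

open Finset Filter Topology

/-- Newtonian force direction. -/
noncomputable def gg (z : ℂ) : ℂ := ((1 / ‖z‖ ^ 3 : ℝ) : ℂ) * z

lemma gg_zero : gg 0 = 0 := by unfold gg; simp

lemma tendsto_gg {ι : Type*} {l : Filter ι} {u : ι → ℂ} {Z : ℂ} (hu : Tendsto u l (𝓝 Z))
    (hZ : Z ≠ 0) : Tendsto (fun k => gg (u k)) l (𝓝 (gg Z)) := by
  unfold gg
  have h1 : Tendsto (fun k => (1 / ‖u k‖ ^ 3 : ℝ)) l (𝓝 (1 / ‖Z‖ ^ 3)) := by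
    apply Tendsto.div tendsto_const_nhds ((hu.norm).pow 3)
    exact pow_ne_zero 3 (norm_ne_zero_iff.2 hZ)
  exact ((Complex.continuous_ofReal.tendsto _).comp h1).mul hu

/-- One central configuration: relative equation. -/
lemma rel_eq {N : ℕ} (ε : ℝ) (q : Fin (N + 1) → ℂ) (lam : ℝ)
    (h : ∀ i : Fin (N + 1),
            (lam : ℂ) * (q i -
              (∑ j : Fin (N + 1), (((if j = 0 then (1 : ℝ) else ε) : ℝ) : ℂ) * q j)
                / (((1 + (N : ℝ) * ε) : ℝ) : ℂ)) =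
            ∑ j ∈ Finset.univ.erase i,
              ((((if j = 0 then (1 : ℝ) else ε) / ‖q i - q j‖ ^ 3 : ℝ)) : ℂ)
                * (q i - q j)) (i : Fin N) :
    (lam : ℂ) * (q i.succ - q 0) = gg (q i.succ - q 0) +
      (ε : ℂ) * (∑ j : Fin N, gg ((q i.succ - q 0) - (q j.succ - q 0)) +
        ∑ j : Fin N, gg (q j.succ - q 0)) := by
  have e1 : ∀ i : Fin (N + 1), ∑ j ∈ Finset.univ.erase i,
              ((((if j = 0 then (1 : ℝ) else ε) / ‖q i - q j‖ ^ 3 : ℝ)) : ℂ)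
                * (q i - q j) = ∑ j,
              ((((if j = 0 then (1 : ℝ) else ε) / ‖q i - q j‖ ^ 3 : ℝ)) : ℂ)
                * (q i - q j) := by
    intro i
    apply Finset.sum_erase
    simp
  obtain ⟨G, hG⟩ : ∃ G : ℂ, ∀ i : Fin (N + 1), (lam : ℂ) * (q i - G) =
      ∑ j, ((((if j = 0 then (1 : ℝ) else ε) / ‖q i - q j‖ ^ 3 : ℝ)) : ℂ) * (q i - q j) :=
    ⟨_, fun i => (h i).trans (e1 i)⟩
  have hi := hG i.succ
  have h0 := hG 0
  rw [Fin.sum_univ_succ] at hi h0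
  simp only [if_true, Fin.succ_ne_zero, if_false, sub_self, mul_zero, zero_add] at hi h0
  have e2 : (lam : ℂ) * (q i.succ - q 0) =
      (lam : ℂ) * (q i.succ - G) - (lam : ℂ) * (q 0 - G) := by ring
  rw [e2, hi, h0, mul_add, mul_sum, mul_sum]
  have e3 : ∑ j : Fin N, ((ε / ‖q i.succ - q j.succ‖ ^ 3 : ℝ) : ℂ) * (q i.succ - q j.succ) =
      ∑ j : Fin N, (ε : ℂ) * gg ((q i.succ - q 0) - (q j.succ - q 0)) := by
    refine sum_congr rfl fun j _ => ?_
    unfold gg
    rw [sub_sub_sub_cancel_right]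
    push_cast
    ring
  have e4 : ∑ j : Fin N, ((ε / ‖q 0 - q j.succ‖ ^ 3 : ℝ) : ℂ) * (q 0 - q j.succ) =
      - ∑ j : Fin N, (ε : ℂ) * gg (q j.succ - q 0) := by
    rw [← sum_neg_distrib]
    refine sum_congr rfl fun j _ => ?_
    unfold gg
    rw [norm_sub_rev (q 0)]
    push_cast
    ring
  rw [e3, e4]
  unfold gg
  ring

lemma im_conj_gg (a b : ℂ) : ((starRingEnd ℂ) a * gg b).im =
    (1 / ‖b‖ ^ 3) * ((starRingEnd ℂ) a * b).im := by
  unfold gg
  rw [← Complex.im_ofReal_mul]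
  congr 1
  ring

lemma im_conj_self (a : ℂ) : ((starRingEnd ℂ) a * a).im = 0 := by
  rw [Complex.conj_mul']
  norm_cast

theorem limit_step {N : ℕ} (hN : 2 ≤ N) (ε : ℕ → ℝ) (hε0 : ∀ k, 0 < ε k)
    (hε : Tendsto ε atTop (𝓝 0)) (lam : ℕ → ℝ) (d : ℕ → Fin N → ℂ) (D : Fin N → ℂ)
    (hd : ∀ i, Tendsto (fun k => d k i) atTop (𝓝 (D i))) (hinj : Function.Injective D)
    (hd0 : ∀ k i, d k i ≠ 0)
    (hrel : ∀ k i, (lam k : ℂ) * d k i = gg (d k i) +
      (ε k : ℂ) * (∑ j, gg (d k i - d k j) + ∑ j, gg (d k j))) :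
    ∃ R : ℝ, 0 < R ∧ (∀ i, ‖D i‖ = R) ∧
      ∀ i, ∑ j, ((starRingEnd ℂ) (D i) * D j).im * (1 / R ^ 3 - 1 / ‖D i - D j‖ ^ 3) = 0 := by
  classical
  have hεC : Tendsto (fun k => (ε k : ℂ)) atTop (𝓝 0) := by
    have := (Complex.continuous_ofReal.tendsto 0).comp hε
    simpa using! this
  -- convergence of mutual forces
  have hmut : ∀ i, Tendsto (fun k => ∑ j, gg (d k i - d k j)) atTop
      (𝓝 (∑ j, gg (D i - D j))) := by
    intro i
    apply tendsto_finsetSum
    intro j _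
    by_cases hij : i = j
    · subst hij
      simp only [sub_self]
      exact tendsto_const_nhds
    · exact tendsto_gg ((hd i).sub (hd j)) (sub_ne_zero.2 (fun h => hij (hinj h)))
  -- no collision with the heavy body
  have hD0 : ∀ p, D p ≠ 0 := by
    intro p hp
    obtain ⟨l, hl⟩ : ∃ l : Fin N, l ≠ p := by
      have : Nontrivial (Fin N) := Fin.nontrivial_iff_two_le.2 hN
      exact exists_ne p
    have hne : ∀ j, j ≠ p → D j ≠ 0 := fun j hj h => hj (hinj (h.trans hp.symm))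
    have hrest : Tendsto (fun k => ∑ j ∈ univ.erase p, gg (d k j)) atTop
        (𝓝 (∑ j ∈ univ.erase p, gg (D j))) := by
      apply tendsto_finsetSum
      intro j hj
      exact tendsto_gg (hd j) (hne j (Finset.ne_of_mem_erase hj))
    have hsplit : ∀ k, ∑ j, gg (d k j) = gg (d k p) + ∑ j ∈ univ.erase p, gg (d k j) := by
      intro k
      exact (Finset.add_sum_erase univ (fun j => gg (d k j)) (mem_univ p)).symm
    have hu : Tendsto (fun k => d k p) atTop (𝓝 0) := by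
      have := hd p; rwa [hp] at this
    have hnu : Tendsto (fun k => ((‖d k p‖ : ℝ) : ℂ)) atTop (𝓝 0) := by
      have := (Complex.continuous_ofReal.tendsto _).comp hu.norm
      simpa using! this
    have hcu : Tendsto (fun k => (starRingEnd ℂ) (d k p)) atTop (𝓝 0) := by
      have := (Complex.continuous_conj.tendsto _).comp hu
      simpa using! this
    have hA : Tendsto (fun k => (lam k : ℂ) * ((‖d k p‖ : ℝ) : ℂ) ^ 3) atTop (𝓝 1) := by
      have h1 : ∀ k, (lam k : ℂ) * ((‖d k p‖ : ℝ) : ℂ) ^ 3 = 1 + (ε k : ℂ) +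
          (ε k : ℂ) * (((‖d k p‖ : ℝ) : ℂ) * (starRingEnd ℂ) (d k p) *
            (∑ j, gg (d k p - d k j) + ∑ j ∈ univ.erase p, gg (d k j))) := by
        intro k
        have h2 := hrel k p
        rw [hsplit k] at h2
        have hn : ((‖d k p‖ : ℝ) : ℂ) ≠ 0 := by
          rw [Complex.ofReal_ne_zero]; exact norm_ne_zero_iff.2 (hd0 k p)
        have h3 : d k p * (starRingEnd ℂ) (d k p) = ((‖d k p‖ : ℝ) : ℂ) ^ 2 :=
          Complex.mul_conj' _
        have h4 : gg (d k p) * (((‖d k p‖ : ℝ) : ℂ) * (starRingEnd ℂ) (d k p)) = 1 := by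
          unfold gg
          have : ((1 / ‖d k p‖ ^ 3 : ℝ) : ℂ) * d k p *
              (((‖d k p‖ : ℝ) : ℂ) * (starRingEnd ℂ) (d k p)) =
              ((1 / ‖d k p‖ ^ 3 : ℝ) : ℂ) * ((‖d k p‖ : ℝ) : ℂ) *
                (d k p * (starRingEnd ℂ) (d k p)) := by ring
          rw [this, h3]
          push_cast
          field_simp
        calc (lam k : ℂ) * ((‖d k p‖ : ℝ) : ℂ) ^ 3 =
            (lam k : ℂ) * d k p * (((‖d k p‖ : ℝ) : ℂ) * (starRingEnd ℂ) (d k p)) := by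
              calc (lam k : ℂ) * ((‖d k p‖ : ℝ) : ℂ) ^ 3 =
                  (lam k : ℂ) * ((‖d k p‖ : ℝ) : ℂ) * ((‖d k p‖ : ℝ) : ℂ) ^ 2 := by ring
                _ = _ := by rw [← h3]; ring
          _ = gg (d k p) * (((‖d k p‖ : ℝ) : ℂ) * (starRingEnd ℂ) (d k p)) +
              (ε k : ℂ) * (gg (d k p) * (((‖d k p‖ : ℝ) : ℂ) * (starRingEnd ℂ) (d k p))) +
              (ε k : ℂ) * (((‖d k p‖ : ℝ) : ℂ) * (starRingEnd ℂ) (d k p) *
                (∑ j, gg (d k p - d k j) + ∑ j ∈ univ.erase p, gg (d k j))) := by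
              rw [h2]; ring
          _ = _ := by rw [h4]; ring
      have h5 : Tendsto (fun k => 1 + (ε k : ℂ) +
          (ε k : ℂ) * (((‖d k p‖ : ℝ) : ℂ) * (starRingEnd ℂ) (d k p) *
            (∑ j, gg (d k p - d k j) + ∑ j ∈ univ.erase p, gg (d k j)))) atTop
          (𝓝 (1 + 0 + 0 * (0 * 0 *
            (∑ j, gg (D p - D j) + ∑ j ∈ univ.erase p, gg (D j))))) :=
        (tendsto_const_nhds.add hεC).add (hεC.mul ((hnu.mul hcu).mul ((hmut p).add hrest)))
      have h6 : (1 + 0 + 0 * (0 * 0 *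
            (∑ j, gg (D p - D j) + ∑ j ∈ univ.erase p, gg (D j))) : ℂ) = 1 := by ring
      rw [h6] at h5
      exact h5.congr (fun k => (h1 k).symm)
    have hB : Tendsto (fun k => (lam k : ℂ) * ((‖d k p‖ : ℝ) : ℂ) ^ 3 * d k l) atTop
        (𝓝 0) := by
      have h1 : ∀ k, (lam k : ℂ) * ((‖d k p‖ : ℝ) : ℂ) ^ 3 * d k l =
          ((‖d k p‖ : ℝ) : ℂ) ^ 3 * gg (d k l) + (ε k : ℂ) * d k p +
          (ε k : ℂ) * (((‖d k p‖ : ℝ) : ℂ) ^ 3 *
            (∑ j, gg (d k l - d k j) + ∑ j ∈ univ.erase p, gg (d k j))) := by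
        intro k
        have h2 := hrel k l
        rw [hsplit k] at h2
        have hn : ((‖d k p‖ : ℝ) : ℂ) ≠ 0 := by
          rw [Complex.ofReal_ne_zero]; exact norm_ne_zero_iff.2 (hd0 k p)
        have h4 : ((‖d k p‖ : ℝ) : ℂ) ^ 3 * gg (d k p) = d k p := by
          unfold gg
          push_cast
          field_simp
        calc (lam k : ℂ) * ((‖d k p‖ : ℝ) : ℂ) ^ 3 * d k l =
            ((‖d k p‖ : ℝ) : ℂ) ^ 3 * ((lam k : ℂ) * d k l) := by ring
          _ = ((‖d k p‖ : ℝ) : ℂ) ^ 3 * gg (d k l) +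
              (ε k : ℂ) * (((‖d k p‖ : ℝ) : ℂ) ^ 3 * gg (d k p)) +
              (ε k : ℂ) * (((‖d k p‖ : ℝ) : ℂ) ^ 3 *
                (∑ j, gg (d k l - d k j) + ∑ j ∈ univ.erase p, gg (d k j))) := by
              rw [h2]; ring
          _ = _ := by rw [h4]
      have h5 : Tendsto (fun k => ((‖d k p‖ : ℝ) : ℂ) ^ 3 * gg (d k l) + (ε k : ℂ) * d k p +
          (ε k : ℂ) * (((‖d k p‖ : ℝ) : ℂ) ^ 3 *
            (∑ j, gg (d k l - d k j) + ∑ j ∈ univ.erase p, gg (d k j)))) atTop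
          (𝓝 ((0 : ℂ) ^ 3 * gg (D l) + 0 * 0 + 0 * ((0 : ℂ) ^ 3 *
            (∑ j, gg (D l - D j) + ∑ j ∈ univ.erase p, gg (D j))))) :=
        (((hnu.pow 3).mul (tendsto_gg (hd l) (hne l hl))).add (hεC.mul hu)).add
          (hεC.mul ((hnu.pow 3).mul ((hmut l).add hrest)))
      have h6 : ((0 : ℂ) ^ 3 * gg (D l) + 0 * 0 + 0 * ((0 : ℂ) ^ 3 *
            (∑ j, gg (D l - D j) + ∑ j ∈ univ.erase p, gg (D j)))) = 0 := by ring
      rw [h6] at h5
      exact h5.congr (fun k => (h1 k).symm)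
    have hC := hA.mul (hd l)
    have := tendsto_nhds_unique hC hB
    rw [one_mul] at this
    exact hne l hl this
  -- all forces converge
  have hall : Tendsto (fun k => ∑ j, gg (d k j)) atTop (𝓝 (∑ j, gg (D j))) :=
    tendsto_finsetSum _ fun j _ => tendsto_gg (hd j) (hD0 j)
  have hlam : ∀ i, Tendsto (fun k => (lam k : ℂ)) atTop (𝓝 ((1 / ‖D i‖ ^ 3 : ℝ) : ℂ)) := by
    intro i
    have h1 : Tendsto (fun k => (lam k : ℂ) * d k i) atTop (𝓝 (gg (D i))) := by
      have h2 : Tendsto (fun k => gg (d k i) +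
          (ε k : ℂ) * (∑ j, gg (d k i - d k j) + ∑ j, gg (d k j))) atTop
          (𝓝 (gg (D i) + 0 * (∑ j, gg (D i - D j) + ∑ j, gg (D j)))) :=
        (tendsto_gg (hd i) (hD0 i)).add (hεC.mul ((hmut i).add hall))
      rw [zero_mul, add_zero] at h2
      exact h2.congr (fun k => (hrel k i).symm)
    have h3 := h1.div (hd i) (hD0 i)
    have h4 : gg (D i) / D i = ((1 / ‖D i‖ ^ 3 : ℝ) : ℂ) := by
      unfold gg
      rw [mul_div_assoc, div_self (hD0 i), mul_one]
    rw [h4] at h3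
    refine h3.congr (fun k => ?_)
    simp only [Pi.div_apply]
    rw [mul_div_assoc, div_self (hd0 k i), mul_one]
  have hnorm : ∀ i j, ‖D i‖ = ‖D j‖ := by
    intro i j
    have h1 := tendsto_nhds_unique (hlam i) (hlam j)
    have h2 : (1 / ‖D i‖ ^ 3 : ℝ) = 1 / ‖D j‖ ^ 3 := by exact_mod_cast h1
    have h3 : ‖D i‖ ^ 3 = ‖D j‖ ^ 3 := by
      have := congrArg (fun x => 1 / x) h2
      simpa using! this
    exact (pow_left_inj₀ (norm_nonneg _) (norm_nonneg _) (by norm_num)).1 h3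
  -- cross identity
  have hcross : ∀ i, ∑ j, ((starRingEnd ℂ) (D i) * gg (D i - D j)).im +
      ∑ j, ((starRingEnd ℂ) (D i) * gg (D j)).im = 0 := by
    intro i
    have h1 : ∀ k, ((starRingEnd ℂ) (d k i) *
        (∑ j, gg (d k i - d k j) + ∑ j, gg (d k j))).im = 0 := by
      intro k
      have h2 : ((starRingEnd ℂ) (d k i) * ((lam k : ℂ) * d k i)).im =
          ((starRingEnd ℂ) (d k i) * (gg (d k i) +
          (ε k : ℂ) * (∑ j, gg (d k i - d k j) + ∑ j, gg (d k j)))).im := by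
        rw [hrel k i]
      have h3 : (starRingEnd ℂ) (d k i) * ((lam k : ℂ) * d k i) =
          ((lam k : ℝ) : ℂ) * ((starRingEnd ℂ) (d k i) * d k i) := by ring
      have h4 : (starRingEnd ℂ) (d k i) * (gg (d k i) +
          (ε k : ℂ) * (∑ j, gg (d k i - d k j) + ∑ j, gg (d k j))) =
          (starRingEnd ℂ) (d k i) * gg (d k i) + ((ε k : ℝ) : ℂ) * ((starRingEnd ℂ) (d k i) *
            (∑ j, gg (d k i - d k j) + ∑ j, gg (d k j))) := by ring
      rw [h3, h4, Complex.im_ofReal_mul, im_conj_self, mul_zero, Complex.add_im, im_conj_gg,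
        im_conj_self, mul_zero, zero_add, Complex.im_ofReal_mul] at h2
      rcases mul_eq_zero.1 h2.symm with h | h
      · exact absurd h (hε0 k).ne'
      · exact h
    have h5 : Tendsto (fun k => ((starRingEnd ℂ) (d k i) *
        (∑ j, gg (d k i - d k j) + ∑ j, gg (d k j))).im) atTop
        (𝓝 (((starRingEnd ℂ) (D i) * (∑ j, gg (D i - D j) + ∑ j, gg (D j))).im)) :=
      (Complex.continuous_im.tendsto _).comp
        (((Complex.continuous_conj.tendsto _).comp (hd i)).mul ((hmut i).add hall))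
    have h6 : Tendsto (fun k => ((starRingEnd ℂ) (d k i) *
        (∑ j, gg (d k i - d k j) + ∑ j, gg (d k j))).im) atTop (𝓝 0) :=
      tendsto_const_nhds.congr (fun k => (h1 k).symm)
    have h7 := tendsto_nhds_unique h5 h6
    rw [mul_add, mul_sum, mul_sum, Complex.add_im, Complex.im_sum, Complex.im_sum] at h7
    exact h7
  have i0 : Fin N := ⟨0, by omega⟩
  refine ⟨‖D i0‖, norm_pos_iff.2 (hD0 i0), fun i => hnorm i i0, ?_⟩
  intro i
  have h1 := hcross i
  rw [← sum_add_distrib] at h1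
  refine Eq.trans (sum_congr rfl fun j _ => ?_) h1
  rw [im_conj_gg, im_conj_gg, mul_sub ((starRingEnd ℂ) (D i)), Complex.sub_im, im_conj_self,
    hnorm j i0]
  ring

end Pool.Agent.Helper99.Ring
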