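import Mathlib
import Pool.Agent.Helper99.RingLimit

namespace Pool.Agent.Helper99.Ring

open Finset Filter Topology

/-- Reduction of the limiting central configuration problem to the statement about angles. -/
theorem final {N : ℕ} (hN : 2 ≤ N) (hcore : CoreStatement N) (x : Fin (N + 1) → ℂ)
    (hlim : ∃ ε : ℕ → ℝ, ∃ q : ℕ → Fin (N + 1) → ℂ,
        (∀ k, 0 < ε k) ∧ Tendsto ε atTop (nhds 0) ∧
        (∀ k, Function.Injective (q k) ∧
          ∃ lam : ℝ, ∀ i : Fin (N + 1),
            (lam : ℂ) * (q k i -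
              (∑ j : Fin (N + 1), (((if j = 0 then (1 : ℝ) else ε k) : ℝ) : ℂ) * q k j)
                / (((1 + (N : ℝ) * ε k) : ℝ) : ℂ)) =
            ∑ j ∈ Finset.univ.erase i,
              ((((if j = 0 then (1 : ℝ) else ε k) / ‖q k i - q k j‖ ^ 3 : ℝ)) : ℂ)
                * (q k i - q k j)) ∧
        Tendsto q atTop (nhds x))
    (hinj : Function.Injective (fun i : Fin N => x i.succ)) :
    ∃ c r : ℂ, r ≠ 0 ∧ ∃ σ : Equiv.Perm (Fin N), ∀ k : Fin N,
      x (σ k).succ = c + r * Complex.exp (2 * (Real.pi : ℂ) * Complex.I * ((k : ℕ) : ℂ) / (N : ℂ)) := by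
  obtain ⟨ε, q, hε0, hε, hcc, hq⟩ := hlim
  have hinjq : ∀ k, Function.Injective (q k) := fun k => (hcc k).1
  choose lam hlam using fun k => (hcc k).2
  have hqi : ∀ i, Tendsto (fun k => q k i) atTop (𝓝 (x i)) := fun i =>
    (tendsto_pi_nhds.1 hq) i
  obtain ⟨R, hR, hnorm, hsum⟩ := limit_step hN ε hε0 hε lam
    (fun k i => q k i.succ - q k 0) (fun i => x i.succ - x 0)
    (fun i => (hqi i.succ).sub (hqi 0))
    (by
      intro i j hij
      apply hinj
      simpa using! hij)
    (by
      intro k i h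
      have := hinjq k (sub_eq_zero.1 h)
      exact absurd this (Fin.succ_ne_zero i))
    (by
      intro k i
      exact rel_eq (ε k) (q k) (lam k) (hlam k) i)
  have hRC : ((R : ℝ) : ℂ) ≠ 0 := by
    rw [Complex.ofReal_ne_zero]; exact hR.ne'
  obtain ⟨r, hr, σ, hσ⟩ := geom (by omega : 0 < N) hcore (fun i => (x i.succ - x 0) / (R : ℂ))
    (by
      intro i
      rw [norm_div, hnorm i, Complex.norm_real, Real.norm_eq_abs, abs_of_pos hR,
        div_self hR.ne'])
    (by
      intro i j hij
      apply hinj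
      simp only at hij ⊢
      rw [div_left_inj' hRC] at hij
      exact sub_left_injective hij)
    (by
      intro i
      have h1 := hsum i
      have h2 : ∑ j : Fin N, ((starRingEnd ℂ) ((x i.succ - x 0) / (R : ℂ)) *
          ((x j.succ - x 0) / (R : ℂ))).im *
          (1 - 1 / ‖(x i.succ - x 0) / (R : ℂ) - (x j.succ - x 0) / (R : ℂ)‖ ^ 3) =
          R * ∑ j : Fin N, ((starRingEnd ℂ) (x i.succ - x 0) * (x j.succ - x 0)).im *
          (1 / R ^ 3 - 1 / ‖(x i.succ - x 0) - (x j.succ - x 0)‖ ^ 3) := by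
        rw [mul_sum]
        refine sum_congr rfl fun j _ => ?_
        have e1 : (starRingEnd ℂ) ((x i.succ - x 0) / (R : ℂ)) *
          ((x j.succ - x 0) / (R : ℂ)) = ((1 / R ^ 2 : ℝ) : ℂ) *
            ((starRingEnd ℂ) (x i.succ - x 0) * (x j.succ - x 0)) := by
          rw [map_div₀, Complex.conj_ofReal]
          push_cast
          field_simp
        rw [e1, Complex.im_ofReal_mul, ← sub_div, norm_div, Complex.norm_real,
          Real.norm_eq_abs, abs_of_pos hR]
        by_cases hij : i = j
        · subst hij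
          rw [im_conj_self]; ring
        · have hne : ‖(x i.succ - x 0) - (x j.succ - x 0)‖ ≠ 0 := by
            rw [norm_ne_zero_iff, sub_sub_sub_cancel_right, sub_ne_zero]
            intro h
            exact hij (hinj h)
          field_simp
      rw [h2, h1, mul_zero])
  refine ⟨x 0, (R : ℂ) * r, mul_ne_zero hRC hr, σ, fun k => ?_⟩
  have h1 := hσ k
  rw [div_eq_iff hRC] at h1
  have h2 : x (σ k).succ = x 0 + (x (σ k).succ - x 0) := by ring
  rw [h2, h1]
  ring

end Pool.Agent.Helper99.Ring
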