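import Mathlib
import Pool.Agent.Helper99.RingTaylor
import Pool.Agent.Helper99.RingKernel

namespace Pool.Agent.Helper99.Ring

open Real Finset

lemma poly_S1 (x : ℝ) (hx : 0 ≤ x) (hx' : x ≤ 1.571) :
    (1 - x ^ 2 / 2 + x ^ 4 / 24) ^ 2 + x * (1 - x ^ 2 / 2 + x ^ 4 / 24) ≤ 1.218 := by
  nlinarith [sq_nonneg (x - 0.418), mul_nonneg hx (sq_nonneg (x - 0.418)), sq_nonneg (x * (x - 0.418)), mul_nonneg hx (sub_nonneg.2 hx'), sq_nonneg (x^2 * (x - 0.418)), sq_nonneg (x^3 - 1.5 * x^2), mul_nonneg (mul_nonneg hx (sub_nonneg.2 hx')) (sq_nonneg (x*(x-0.418))), mul_nonneg (mul_nonneg hx (sub_nonneg.2 hx')) (sq_nonneg ((x-0.418)))]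

lemma poly_S2 (x : ℝ) (hx : -1.571 ≤ x) (hx' : x ≤ 1.571) :
    (1 - x ^ 2 / 2 + x ^ 4 / 24) ^ 2 + (1.5708 + x) * (1 - x ^ 2 / 2 + x ^ 4 / 24) ≤ 2.704 := by
  nlinarith [sq_nonneg (x - 0.26), sq_nonneg (x * (x - 0.26)),  sq_nonneg (x^2 * (x - 0.26)), mul_nonneg (sub_nonneg.2 hx) (sub_nonneg.2 hx'), mul_nonneg (mul_nonneg (sub_nonneg.2 hx) (sub_nonneg.2 hx')) (sq_nonneg (x*(x-0.26))), mul_nonneg (mul_nonneg (sub_nonneg.2 hx) (sub_nonneg.2 hx')) (sq_nonneg ((x-0.26)))]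

lemma F0 (θ : ℝ) (h1 : -π ≤ θ) (h2 : θ ≤ π) : sin θ ^ 2 - θ * sin θ ≤ 0 := by
  rcases sin_mul_le θ with h | h
  · linarith
  · exfalso
    have : |θ| ≤ π := abs_le.2 ⟨h1, h2⟩
    linarith

lemma F1 (θ : ℝ) (h1 : -π ≤ θ) (h2 : θ ≤ π) : sin θ ^ 2 + (π / 2 - θ) * sin θ ≤ 1.218 := by
  have hpi := pi_gt_d4
  have hpi' := pi_lt_d4
  have h0 := F0 θ h1 h2
  rcases le_total θ 0 with h | h
  · have hs : sin θ ≤ 0 := sin_nonpos_of_nonpos_of_neg_pi_le h h1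
    nlinarith
  · have hs : 0 ≤ sin θ := sin_nonneg_of_nonneg_of_le_pi h h2
    have hs1 := sin_le_one θ
    rcases le_total θ (π / 2) with h3 | h3
    · have hx : 0 ≤ π / 2 - θ := by linarith
      have hx' : π / 2 - θ ≤ 1.571 := by linarith
      have hc : cos (π / 2 - θ) = sin θ := cos_pi_div_two_sub θ
      have hP := cos_le_t4 (π / 2 - θ)
      rw [hc] at hP
      have := poly_S1 _ hx hx'
      nlinarith
    · nlinarith

lemma F2 (θ : ℝ) (h1 : -π ≤ θ) (h2 : θ ≤ π) : sin θ ^ 2 + (π - θ) * sin θ ≤ 2.704 := by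
  have hpi := pi_gt_d4
  have hpi' := pi_lt_d4
  have h0 := F0 θ h1 h2
  rcases le_total θ 0 with h | h
  · have hs : sin θ ≤ 0 := sin_nonpos_of_nonpos_of_neg_pi_le h h1
    nlinarith
  · have hs : 0 ≤ sin θ := sin_nonneg_of_nonneg_of_le_pi h h2
    have hx : -1.571 ≤ π / 2 - θ := by linarith
    have hx' : π / 2 - θ ≤ 1.571 := by linarith
    have hc : cos (π / 2 - θ) = sin θ := cos_pi_div_two_sub θ
    have hP := cos_le_t4 (π / 2 - θ)
    rw [hc] at hP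
    have := poly_S2 _ hx hx'
    have h3 : π - θ ≤ 1.5708 + (π / 2 - θ) := by linarith
    have h4 : 0 ≤ π - θ := by linarith
    nlinarith

/-- Chord bound for `t ≥ 0`, where `t = (π / 2) τ`. -/
lemma chord_nonneg (τ θ : ℝ) (hτ : 0 ≤ τ) (hτ' : τ ≤ 2) (h1 : -π ≤ θ) (h2 : θ ≤ π) :
    sin θ ^ 2 + (π / 2 * τ - θ) * sin θ ≤ 1.218 * τ + 0.268 * max 0 (τ - 1) := by
  have h0 := F0 θ h1 h2
  have h3 := F1 θ h1 h2
  have h4 := F2 θ h1 h2
  rcases le_total τ 1 with h | h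
  · rw [max_eq_left (by linarith)]
    nlinarith
  · rw [max_eq_right (by linarith)]
    nlinarith

lemma chord (τ θ : ℝ) (hτ : |τ| ≤ 2) (h1 : -π ≤ θ) (h2 : θ ≤ π) :
    sin θ ^ 2 + (π / 2 * τ - θ) * sin θ ≤ 1.218 * |τ| + 0.268 * max 0 (|τ| - 1) := by
  rcases le_total 0 τ with h | h
  · rw [abs_of_nonneg h] at hτ ⊢
    exact chord_nonneg τ θ h hτ h1 h2
  · rw [abs_of_nonpos h] at hτ ⊢
    have := chord_nonneg (-τ) (-θ) (by linarith) hτ (by linarith) (by linarith)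
    rw [sin_neg] at this
    nlinarith

/-- `∑_{i<M} (n - 1 - 2 i)_+ ≤ n² / 4`. -/
lemma sum_pos_part (M : ℕ) : ∀ n : ℝ, 0 ≤ n →
    ∑ i ∈ range M, max 0 (n - 1 - 2 * (i : ℝ)) ≤ n ^ 2 / 4 := by
  induction M with
  | zero => intro n hn; simp; positivity
  | succ M ih =>
    intro n hn
    rw [sum_range_succ']
    by_cases h : 2 ≤ n
    · have h1 := ih (n - 2) (by linarith)
      have h2 : ∑ i ∈ range M, max 0 (n - 1 - 2 * ((i + 1 : ℕ) : ℝ)) =
          ∑ i ∈ range M, max 0 ((n - 2) - 1 - 2 * (i : ℝ)) := by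
        refine sum_congr rfl fun i _ => ?_
        congr 1
        push_cast
        ring
      rw [h2]
      have h3 : max 0 (n - 1 - 2 * ((0 : ℕ) : ℝ)) = n - 1 := by
        rw [max_eq_right] <;> push_cast <;> linarith
      rw [h3]
      nlinarith
    · have h2 : ∑ i ∈ range M, max 0 (n - 1 - 2 * ((i + 1 : ℕ) : ℝ)) = 0 := by
        apply sum_eq_zero
        intro i _
        apply max_eq_left
        push_cast
        have : (0 : ℝ) ≤ i := by positivity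
        linarith
      rw [h2]
      have h3 : max 0 (n - 1 - 2 * ((0 : ℕ) : ℝ)) ≤ n ^ 2 / 4 := by
        apply max_le (by positivity)
        push_cast
        nlinarith [sq_nonneg (n - 2)]
      linarith

lemma sum_abs_part (N : ℕ) (c : ℝ) (hc : 0 ≤ c) (hcN : c ≤ N) :
    ∑ k ∈ range N, max 0 (|2 * (k : ℝ) - ((N : ℝ) - 1)| - c) ≤ (N - c) ^ 2 / 2 := by
  have h1 := sum_pos_part N (N - c) (by linarith)
  have h2 : ∑ k ∈ range N, max 0 (2 * (k : ℝ) - ((N : ℝ) - 1) - c) =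
      ∑ i ∈ range N, max 0 ((N : ℝ) - c - 1 - 2 * (i : ℝ)) := by
    rw [← sum_range_reflect]
    refine sum_congr rfl fun k hk => ?_
    have hk' := mem_range.1 hk
    have : ((N - 1 - k : ℕ) : ℝ) = (N : ℝ) - 1 - k := by
      have h3 : N - 1 - k = N - (k + 1) := by omega
      rw [h3, Nat.cast_sub (by omega)]
      push_cast; ring
    rw [this]
    congr 1
    ring
  have h3 : ∑ k ∈ range N, max 0 (|2 * (k : ℝ) - ((N : ℝ) - 1)| - c) ≤
      ∑ k ∈ range N, (max 0 ((N : ℝ) - c - 1 - 2 * (k : ℝ)) +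
        max 0 (2 * (k : ℝ) - ((N : ℝ) - 1) - c)) := by
    apply sum_le_sum
    intro k _
    rcases abs_cases (2 * (k : ℝ) - ((N : ℝ) - 1)) with ⟨h, _⟩ | ⟨h, _⟩
    · rw [h]
      have := le_max_left 0 ((N : ℝ) - c - 1 - 2 * (k : ℝ))
      linarith
    · rw [h]
      have := le_max_left 0 (2 * (k : ℝ) - ((N : ℝ) - 1) - c)
      have e : -(2 * (k : ℝ) - ((N : ℝ) - 1)) - c = (N : ℝ) - c - 1 - 2 * (k : ℝ) := by ring
      rw [e]
      linarith
  rw [sum_add_distrib, h2] at h3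
  linarith

end Pool.Agent.Helper99.Ring
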