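import Mathlib
import Pool.Agent.Helper99.RingS
import Pool.Agent.Helper99.RingLambda

namespace Pool.Agent.Helper99.Ring

open Real Finset

lemma HH_mono {m n : ℕ} (h : m ≤ n) : HH m ≤ HH n := by
  unfold HH
  apply sum_le_sum_of_subset_of_nonneg
  · intro x hx
    rw [mem_range] at *
    omega
  · intro i _ _
    positivity

lemma HH_86 : 5.0373 ≤ HH 86 := by
  unfold HH
  norm_num [sum_range_succ]

lemma S_bound {N : ℕ} [NeZero N] (θ : Fin N → ℝ) (hs : ∑ j, sin (θ j) = 0)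
    (hr : ∀ k, -π ≤ θ k ∧ θ k ≤ π) :
    ∑ k, (sin (θ k) ^ 2 - DD θ k * sin (θ k)) ≤ 1.285 * N := by
  have hN : (0 : ℝ) < N := by
    have := Nat.pos_of_ne_zero (NeZero.ne N)
    exact_mod_cast this
  have h1 : ∑ k : Fin N, (sin (θ k) ^ 2 - DD θ k * sin (θ k)) =
      ∑ k : Fin N, (sin (θ k) ^ 2 +
        (π / 2 * (2 / N * (2 * ((k : ℕ) : ℝ) - ((N : ℝ) - 1))) - θ k) * sin (θ k)) := by
    have h2 : ∑ k : Fin N, (sin (θ k) ^ 2 +
        (π / 2 * (2 / N * (2 * ((k : ℕ) : ℝ) - ((N : ℝ) - 1))) - θ k) * sin (θ k)) =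
        ∑ k : Fin N, ((sin (θ k) ^ 2 - DD θ k * sin (θ k)) -
          (π / N * ((N : ℝ) - 1)) * sin (θ k)) := by
      refine sum_congr rfl fun k _ => ?_
      unfold DD
      field_simp
      ring
    rw [h2, sum_sub_distrib (f := fun k => sin (θ k) ^ 2 - DD θ k * sin (θ k)), ← mul_sum, hs]
    ring
  rw [h1]
  have h3 : ∑ k : Fin N, (sin (θ k) ^ 2 +
        (π / 2 * (2 / N * (2 * ((k : ℕ) : ℝ) - ((N : ℝ) - 1))) - θ k) * sin (θ k)) ≤
      ∑ k : Fin N, (1.218 * (2 / N) * max 0 (|2 * ((k : ℕ) : ℝ) - ((N : ℝ) - 1)| - 0) +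
        0.268 * (2 / N) * max 0 (|2 * ((k : ℕ) : ℝ) - ((N : ℝ) - 1)| - N / 2)) := by
    apply sum_le_sum
    intro k _
    have hk : ((k : ℕ) : ℝ) + 1 ≤ N := by exact_mod_cast k.2
    have hk0 : (0 : ℝ) ≤ ((k : ℕ) : ℝ) := by positivity
    have habs : |2 * ((k : ℕ) : ℝ) - ((N : ℝ) - 1)| ≤ N := by
      rw [abs_le]; constructor <;> linarith
    have h2N : (0 : ℝ) < 2 / N := by positivity
    have h4 := chord (2 / N * (2 * ((k : ℕ) : ℝ) - ((N : ℝ) - 1))) (θ k) (by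
      rw [abs_mul, abs_of_pos h2N]
      calc 2 / (N : ℝ) * |2 * ((k : ℕ) : ℝ) - ((N : ℝ) - 1)| ≤ 2 / (N : ℝ) * N := by
            apply mul_le_mul_of_nonneg_left habs h2N.le
        _ = 2 := by field_simp) (hr k).1 (hr k).2
    refine h4.trans (le_of_eq ?_)
    rw [abs_mul, abs_of_pos h2N, sub_zero,
      max_eq_right (abs_nonneg (2 * ((k : ℕ) : ℝ) - ((N : ℝ) - 1)))]
    have e : max 0 (2 / (N : ℝ) * |2 * ((k : ℕ) : ℝ) - ((N : ℝ) - 1)| - 1) =
        2 / N * max 0 (|2 * ((k : ℕ) : ℝ) - ((N : ℝ) - 1)| - N / 2) := by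
      rw [mul_max_of_nonneg _ _ h2N.le, mul_zero, mul_sub]
      congr 2
      field_simp
    rw [e]
    ring
  refine h3.trans ?_
  rw [sum_add_distrib, ← mul_sum, ← mul_sum]
  have h5 := sum_abs_part N 0 le_rfl hN.le
  have h6 := sum_abs_part N (N / 2) (by linarith) (by linarith)
  rw [← Fin.sum_univ_eq_sum_range (fun k => max 0 (|2 * (k : ℝ) - ((N : ℝ) - 1)| - 0)) N] at h5
  rw [← Fin.sum_univ_eq_sum_range (fun k => max 0 (|2 * (k : ℝ) - ((N : ℝ) - 1)| - N / 2)) N] at h6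
  have h7 := mul_le_mul_of_nonneg_left h5 (by positivity : (0 : ℝ) ≤ 1.218 * (2 / N))
  have h8 := mul_le_mul_of_nonneg_left h6 (by positivity : (0 : ℝ) ≤ 0.268 * (2 / N))
  have e7 : 1.218 * (2 / (N : ℝ)) * (((N : ℝ) - 0) ^ 2 / 2) = 1.218 * N := by
    field_simp; ring
  have e8 : 0.268 * (2 / (N : ℝ)) * (((N : ℝ) - N / 2) ^ 2 / 2) = 0.067 * N := by
    field_simp; ring
  rw [e7] at h7
  rw [e8] at h8
  linarith

theorem core {N : ℕ} (hN : 87 ≤ N) (θ : Fin N → ℝ) (hmono : StrictMono θ)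
    (hr : ∀ k, -π < θ k ∧ θ k ≤ π) (hs : ∑ j, sin (θ j) = 0)
    (hm : 0 ≤ ∑ j, cos (θ j)) (hc : Crit θ) :
    ∀ i j, i < j → bb θ i j = aa i j := by
  have : NeZero N := ⟨by omega⟩
  have hN0 : (0 : ℝ) < N := by
    have : 0 < N := by omega
    exact_mod_cast this
  have hb : ∀ i j, i < j → 0 < bb θ i j ∧ bb θ i j < π := by
    intro i j hij
    have := hmono hij
    have h1 := (hr i).1
    have h2 := (hr j).2
    unfold bb
    constructor <;> linarith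
  rcases key_dichotomy θ hs hm hc hb with h | h
  · exact h
  · exfalso
    have h1 := S_bound θ hs (fun k => ⟨(hr k).1.le, (hr k).2⟩)
    have h2 := LA_ge N (by omega)
    have h3 : 5.0373 ≤ HH (N - 1) := HH_86.trans (HH_mono (by omega))
    have h4 : (N : ℝ) / π * (HH (N - 1) - 1) ≤ 1.285 * N := h2.trans (h.trans h1)
    have h5 : (N : ℝ) / π * (HH (N - 1) - 1) = N * ((HH (N - 1) - 1) / π) := by ring
    rw [h5, mul_comm (1.285 : ℝ)] at h4
    have h6 := le_of_mul_le_mul_left h4 hN0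
    rw [div_le_iff₀ pi_pos] at h6
    have := pi_lt_d4
    nlinarith

end Pool.Agent.Helper99.Ring
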